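import Pool.Agent.D0H17.MW.Final

set_option autoImplicit false

/-! The greedy algorithm and well-spaced sets of sums of powers. -/

namespace Pool.Agent.D0H17.MR

open Finset Pool.Agent.D0H17.MW

lemma rpow_root (n : ℕ) {v : ℝ} (hv : 0 ≤ v) : (v ^ ((1 : ℝ) / ((n : ℝ) + 2))) ^ (n + 2) = v := by
  rw [← Real.rpow_natCast, ← Real.rpow_mul hv]
  have : (1 : ℝ) / ((n : ℝ) + 2) * ((n + 2 : ℕ) : ℝ) = 1 := by
    push_cast
    field_simp
  rw [this, Real.rpow_one]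

/-- one greedy step -/
lemma gstep (n : ℕ) : ∃ K v0 : ℝ, 1 ≤ K ∧ 1 ≤ v0 ∧ ∀ v : ℝ, v0 ≤ v → ∃ x : ℕ, 1 ≤ x ∧
    v ^ dl n ≤ v - (x : ℝ) ^ (n + 2) ∧ v - (x : ℝ) ^ (n + 2) ≤ K * v ^ dl n := by
  refine ⟨1 + (n + 2) * 2 ^ (n + 1), 2 ^ (n + 2), ?_, one_le_pow₀ (by norm_num), ?_⟩
  · have : (0 : ℝ) ≤ (n + 2) * 2 ^ (n + 1) := by positivity
    linarith
  intro v hv
  have h2 : (2 : ℝ) ≤ 2 ^ (n + 2) := by
    calc (2 : ℝ) = 2 ^ 1 := by norm_num
      _ ≤ 2 ^ (n + 2) := pow_le_pow_right₀ (by norm_num) (by omega)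
  have hv1 : 2 ≤ v := h2.trans hv
  have hv0 : 0 < v := by linarith
  set q : ℝ := v ^ ((1 : ℝ) / ((n : ℝ) + 2)) with hq
  have hqk : q ^ (n + 2) = v := rpow_root n hv0.le
  have hq0 : 0 < q := Real.rpow_pos_of_pos hv0 _
  have hq2 : 2 ≤ q := by
    by_contra h
    have h3 : q ^ (n + 2) < 2 ^ (n + 2) := pow_lt_pow_left₀ (not_le.1 h) hq0.le (by omega)
    linarith
  have hw : v ^ dl n = q ^ (n + 1) := by
    rw [hq, ← Real.rpow_natCast, ← Real.rpow_mul hv0.le]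
    congr 1
    unfold dl
    push_cast
    field_simp
    ring
  have hvq : v = q ^ (n + 1) * q := by rw [← hqk]; ring
  have hw0 : 0 < q ^ (n + 1) := by positivity
  have hws : q ^ (n + 1) ≤ v / 2 := by
    rw [hvq]
    have := mul_le_mul_of_nonneg_left hq2 hw0.le
    linarith
  set s : ℝ := v - v ^ dl n with hs
  have hs1 : 1 ≤ s := by rw [hs, hw]; linarith
  set r : ℝ := s ^ ((1 : ℝ) / ((n : ℝ) + 2)) with hr
  have hrk : r ^ (n + 2) = s := rpow_root n (by linarith)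
  have hr1 : 1 ≤ r := Real.one_le_rpow hs1 (by positivity)
  set x : ℕ := ⌊r⌋₊ with hx
  have hx1 : 1 ≤ x := by
    rw [hx]
    exact (Nat.one_le_floor_iff r).2 hr1
  have hxr : (x : ℝ) ≤ r := Nat.floor_le (by linarith)
  have hxr2 : r < (x : ℝ) + 1 := Nat.lt_floor_add_one r
  have hx0 : (1 : ℝ) ≤ x := by exact_mod_cast hx1
  have hxs : (x : ℝ) ^ (n + 2) ≤ s := by
    rw [← hrk]
    exact pow_le_pow_left₀ (by linarith) hxr _
  have hxs2 : s < ((x : ℝ) + 1) ^ (n + 2) := by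
    rw [← hrk]
    exact pow_lt_pow_left₀ hxr2 (by linarith) (by omega)
  have hxq : (x : ℝ) ≤ q := by
    by_contra h
    have h3 : q ^ (n + 2) < (x : ℝ) ^ (n + 2) := pow_lt_pow_left₀ (not_le.1 h) hq0.le (by omega)
    have h4 : 0 < v ^ dl n := Real.rpow_pos_of_pos hv0 _
    rw [hqk] at h3
    linarith
  have hup := pow_up (n + 1) (u := (x : ℝ)) (D := 1) (M := 2 * x) (by linarith) (by norm_num) (by linarith)
  have e1 : n + 1 + 1 = n + 2 := rfl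
  rw [e1] at hup
  refine ⟨x, hx1, by linarith, ?_⟩
  have h5 : (2 * (x : ℝ)) ^ (n + 1) ≤ 2 ^ (n + 1) * v ^ dl n := by
    rw [mul_pow, hw]
    exact mul_le_mul_of_nonneg_left (pow_le_pow_left₀ (by linarith) hxq _) (by positivity)
  have h6 : (((n + 1 : ℕ) : ℝ) + 1) * (2 * (x : ℝ)) ^ (n + 1) * 1 ≤ (n + 2) * 2 ^ (n + 1) * v ^ dl n := by
    push_cast
    have h7 : ((n : ℝ) + 1 + 1) * (2 * (x : ℝ)) ^ (n + 1) ≤ ((n : ℝ) + 1 + 1) * (2 ^ (n + 1) * v ^ dl n) :=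
      mul_le_mul_of_nonneg_left h5 (by positivity)
    refine le_trans (le_of_eq (mul_one _)) (h7.trans (le_of_eq ?_))
    ring
  have h7 : (1 + ((n : ℝ) + 2) * 2 ^ (n + 1)) * v ^ dl n = v ^ dl n + (n + 2) * 2 ^ (n + 1) * v ^ dl n := by ring
  rw [h7]
  linarith

/-- the greedy algorithm -/
lemma greedy (n t : ℕ) : ∃ K u0 : ℝ, 1 ≤ K ∧ 1 ≤ u0 ∧ ∀ u : ℝ, u0 ≤ u → ∃ x : Fin t → ℕ, (∀ i, 1 ≤ x i) ∧
    u ^ (dl n ^ t) ≤ u - ∑ i, (x i : ℝ) ^ (n + 2) ∧ u - ∑ i, (x i : ℝ) ^ (n + 2) ≤ K * u ^ (dl n ^ t) := by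
  obtain ⟨hd0, hd1⟩ := dl_mem n
  induction t with
  | zero =>
    refine ⟨1, 1, le_rfl, le_rfl, fun u hu => ⟨Fin.elim0, fun i => i.elim0, ?_, ?_⟩⟩
    · simp
    · simp
  | succ t ih =>
    obtain ⟨K, u0, hK, hu0, h⟩ := ih
    obtain ⟨K', v0, hK', hv0, h'⟩ := gstep n
    set e : ℝ := dl n ^ t with he
    have he0 : 0 < e := pow_pos hd0 t
    refine ⟨K' * K, max u0 (v0 ^ (1 / e)), one_le_mul_of_one_le_of_one_le hK' hK, le_max_of_le_left hu0, ?_⟩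
    intro u hu
    have hu1 : u0 ≤ u := (le_max_left _ _).trans hu
    have hu2 : v0 ^ (1 / e) ≤ u := (le_max_right _ _).trans hu
    have hup : 0 < u := by linarith
    obtain ⟨x, hx1, hx2, hx3⟩ := h u hu1
    set v : ℝ := u - ∑ i, (x i : ℝ) ^ (n + 2) with hv
    have hue : v0 ≤ u ^ e := by
      calc v0 = (v0 ^ (1 / e)) ^ e := by
            rw [← Real.rpow_mul (by linarith)]
            have : 1 / e * e = 1 := by field_simp
            rw [this, Real.rpow_one]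
        _ ≤ u ^ e := Real.rpow_le_rpow (Real.rpow_nonneg (by linarith) _) hu2 he0.le
    have hue0 : 0 < u ^ e := Real.rpow_pos_of_pos hup _
    have hv1 : v0 ≤ v := hue.trans hx2
    have hvp : 0 < v := by linarith
    obtain ⟨y, hy1, hy2, hy3⟩ := h' v hv1
    have hpow : u ^ (dl n ^ (t + 1)) = (u ^ e) ^ dl n := by
      rw [← Real.rpow_mul hup.le, he, pow_succ]
    refine ⟨Fin.cons y x, ?_, ?_, ?_⟩
    · intro i
      refine Fin.cases ?_ (fun i => ?_) i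
      · simpa using hy1
      · simpa using hx1 i
    · rw [Fin.sum_univ_succ]
      simp only [Fin.cons_zero, Fin.cons_succ]
      have h1 : (u ^ e) ^ dl n ≤ v ^ dl n := Real.rpow_le_rpow hue0.le hx2 hd0.le
      rw [hpow]
      linarith
    · rw [Fin.sum_univ_succ]
      simp only [Fin.cons_zero, Fin.cons_succ]
      have h1 : v ^ dl n ≤ (K * u ^ e) ^ dl n := Real.rpow_le_rpow hvp.le hx3 hd0.le
      have h2 : (K * u ^ e) ^ dl n ≤ K * (u ^ e) ^ dl n := by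
        rw [Real.mul_rpow (by linarith) hue0.le]
        refine mul_le_mul_of_nonneg_right ?_ (Real.rpow_nonneg hue0.le _)
        calc K ^ dl n ≤ K ^ (1 : ℝ) := Real.rpow_le_rpow_of_exponent_le hK hd1.le
          _ = K := Real.rpow_one K
      have h3 : K' * v ^ dl n ≤ K' * (K * (u ^ e) ^ dl n) := mul_le_mul_of_nonneg_left (h1.trans h2) (by linarith)
      rw [hpow]
      linarith

lemma count_near (r : ℝ) (s : Finset ℕ) (hs : ∀ m ∈ s, |r - (m : ℝ)| < 7) : s.card ≤ 15 := by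
  have h1 : s ⊆ Ico ⌊r - 7⌋₊ (⌊r - 7⌋₊ + 15) := by
    intro m hm
    have h2 := abs_lt.1 (hs m hm)
    have h3 : r - 7 < ⌊r - 7⌋₊ + 1 := Nat.lt_floor_add_one _
    rw [mem_Ico]
    constructor
    · rcases le_or_gt 0 (r - 7) with h | h
      · have h4 : (⌊r - 7⌋₊ : ℝ) ≤ r - 7 := Nat.floor_le h
        have h5 : (⌊r - 7⌋₊ : ℝ) ≤ m := by linarith [h2.2]
        exact_mod_cast h5
      · rw [Nat.floor_of_nonpos h.le]
        exact Nat.zero_le _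
    · have h4 : (m : ℝ) < ⌊r - 7⌋₊ + 15 := by linarith [h2.1]
      exact_mod_cast h4
  calc s.card ≤ (Ico ⌊r - 7⌋₊ (⌊r - 7⌋₊ + 15)).card := card_le_card h1
    _ = 15 := by rw [Nat.card_Ico]; omega

/-- a well-spaced set of sums of `t` powers -/
lemma coarse (n t : ℕ) : ∃ K u0 : ℝ, 1 ≤ K ∧ 1 ≤ u0 ∧ ∀ (U : ℝ) (g0 : ℕ), 0 ≤ U → 1 ≤ g0 → K * U ^ (dl n ^ t) ≤ g0 →
    ∃ X : Finset ℕ, (∀ b ∈ X, ∃ x : Fin t → ℕ, (∀ i, 1 ≤ x i) ∧ b = ∑ i, x i ^ (n + 2)) ∧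
      (X.card : ℝ) ≤ U / g0 + 1 ∧
      (∀ v : ℝ, ((X.filter fun x : ℕ => |v - (x : ℝ)| < 2 * (3 * g0)).card : ℝ) ≤ 15) ∧
      ∀ u : ℝ, u0 + g0 ≤ u → u ≤ U → ∃ x ∈ X, |u - (x : ℝ)| < 3 * g0 := by
  classical
  obtain ⟨hd0, hd1⟩ := dl_mem n
  obtain ⟨K, u0, hK, hu0, h⟩ := greedy n t
  refine ⟨K, u0, hK, hu0, ?_⟩
  intro U g0 hU hg hKU
  have hg0 : (1 : ℝ) ≤ g0 := by exact_mod_cast hg
  have he0 : 0 < dl n ^ t := pow_pos hd0 t
  have hex : ∀ m : ℕ, ∃ b : ℕ, (u0 ≤ (m : ℝ) * g0 ∧ (m : ℝ) * g0 ≤ U) →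
      (∃ x : Fin t → ℕ, (∀ i, 1 ≤ x i) ∧ b = ∑ i, x i ^ (n + 2)) ∧ (b : ℝ) ≤ m * g0 ∧ (m : ℝ) * g0 - g0 ≤ b := by
    intro m
    by_cases hm : u0 ≤ (m : ℝ) * g0 ∧ (m : ℝ) * g0 ≤ U
    · obtain ⟨x, hx1, hx2, hx3⟩ := h _ hm.1
      refine ⟨∑ i, x i ^ (n + 2), fun _ => ⟨⟨x, hx1, rfl⟩, ?_, ?_⟩⟩
      · push_cast
        have h0 : 0 ≤ ((m : ℝ) * g0) ^ (dl n ^ t) := Real.rpow_nonneg (by positivity) _
        linarith
      · push_cast
        have h1 : K * ((m : ℝ) * g0) ^ (dl n ^ t) ≤ K * U ^ (dl n ^ t) :=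
          mul_le_mul_of_nonneg_left (Real.rpow_le_rpow (by positivity) hm.2 he0.le) (by linarith)
        linarith
    · exact ⟨0, fun h => absurd h hm⟩
  choose B hB using hex
  set s : Finset ℕ := (range (⌊U / g0⌋₊ + 1)).filter fun m => u0 ≤ (m : ℝ) * g0 ∧ (m : ℝ) * g0 ≤ U with hs
  have hsm : ∀ m ∈ s, u0 ≤ (m : ℝ) * g0 ∧ (m : ℝ) * g0 ≤ U := fun m hm => (mem_filter.1 hm).2
  refine ⟨s.image B, ?_, ?_, ?_, ?_⟩
  · intro b hb
    rw [mem_image] at hb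
    obtain ⟨m, hm, rfl⟩ := hb
    exact (hB m (hsm m hm)).1
  · have h1 : (s.image B).card ≤ ⌊U / g0⌋₊ + 1 := by
      refine card_image_le.trans ((card_filter_le _ _).trans (le_of_eq (card_range _)))
    have h2 : ((s.image B).card : ℝ) ≤ (⌊U / g0⌋₊ : ℝ) + 1 := by exact_mod_cast h1
    have h3 : (⌊U / g0⌋₊ : ℝ) ≤ U / g0 := Nat.floor_le (by positivity)
    linarith
  · intro v
    have h1 : (s.image B).filter (fun x : ℕ => |v - (x : ℝ)| < 2 * (3 * g0)) ⊆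
        (s.filter fun m : ℕ => |v / g0 - (m : ℝ)| < 7).image B := by
      intro b hb
      rw [mem_filter, mem_image] at hb
      obtain ⟨⟨m, hm, rfl⟩, hb2⟩ := hb
      rw [mem_image]
      refine ⟨m, ?_, rfl⟩
      rw [mem_filter]
      refine ⟨hm, ?_⟩
      obtain ⟨_, h2, h3⟩ := hB m (hsm m hm)
      have h4 : |v - m * g0| < 7 * g0 := by
        rw [abs_lt] at hb2 ⊢
        constructor <;> linarith [hb2.1, hb2.2]
      have h5 : v / g0 - m = (v - m * g0) / g0 := by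
        field_simp
      rw [h5, abs_div, abs_of_pos (by linarith : (0 : ℝ) < g0), div_lt_iff₀ (by linarith)]
      exact h4
    have h2 : (s.filter fun m : ℕ => |v / g0 - (m : ℝ)| < 7).card ≤ 15 :=
      count_near (v / g0) _ fun m hm => (mem_filter.1 hm).2
    have h3 : ((s.image B).filter (fun x : ℕ => |v - (x : ℝ)| < 2 * (3 * g0))).card ≤ 15 :=
      (card_le_card h1).trans (card_image_le.trans h2)
    exact_mod_cast h3
  · intro u hu1 hu2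
    have hu0' : 0 ≤ u := by linarith
    set m : ℕ := ⌊u / g0⌋₊ with hm
    have h1 : (m : ℝ) * g0 ≤ u := by
      rw [← le_div_iff₀ (by linarith)]
      exact Nat.floor_le (by positivity)
    have h2 : u < (m : ℝ) * g0 + g0 := by
      have : u / g0 < m + 1 := Nat.lt_floor_add_one _
      rw [div_lt_iff₀ (by linarith)] at this
      linarith
    have h3 : u0 ≤ (m : ℝ) * g0 ∧ (m : ℝ) * g0 ≤ U := ⟨by linarith, by linarith⟩
    have h4 : m ∈ s := by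
      rw [hs, mem_filter, mem_range]
      refine ⟨?_, h3⟩
      have : m ≤ ⌊U / g0⌋₊ := Nat.floor_le_floor (div_le_div_of_nonneg_right hu2 (by linarith))
      omega
    obtain ⟨_, h5, h6⟩ := hB m h3
    refine ⟨B m, mem_image_of_mem _ h4, ?_⟩
    rw [abs_lt]
    constructor <;> linarith

end Pool.Agent.D0H17.MR
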