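import Pool.Agent.D0H17.MR.Moment
import Pool.Agent.D0H17.MR.Greedy

set_option autoImplicit false

/-! The bad ratios at one scale. -/

namespace Pool.Agent.D0H17.MR

open Finset MeasureTheory

/-- the coefficient of the last block -/
noncomputable def sc (fl : Bool) (c : ℝ) : ℝ := if fl then c else 1

/-- the ratios `c` for which some target of the window `[A, A']` is missed in a wide sense -/
def Bad (fl : Bool) (ρ A A' : ℝ) (X Y D : Finset ℕ) : Set ℝ :=
  {c | ∃ τ : ℝ, A ≤ τ ∧ τ ≤ A' ∧ ∀ x ∈ X, ∀ y ∈ Y, ∀ d ∈ D, 3 * ρ ≤ |(x : ℝ) + c * y + sc fl c * d - τ|}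

/-- the lower bound of the second moment near a bad ratio -/
lemma bad_VV (fl : Bool) {ρ g A A' B l h : ℝ} (hρ : 0 < ρ) (hρg : ρ ≤ g) (X Y D : Finset ℕ)
    (hB0 : 0 ≤ B) (hYB : ∀ y ∈ Y, (y : ℝ) ≤ B) (hDB : ∀ d ∈ D, (d : ℝ) ≤ B) (hl : 0 < l) (hl1 : l ≤ 1) (hlρ : 2 * ρ ≤ l)
    (hρ1 : ρ ≤ 1)
    {c c' : ℝ} (hc : c ∈ Bad fl ρ A A' X Y D) (hcc : |c' - c| ≤ h) (hh : h * (2 * B) ≤ ρ) (hc1 : l ≤ c')
    (hcov : ∀ u : ℝ, A - 2 * (c' + 1) * B - 1 ≤ u → u ≤ A' + 1 → ∃ x ∈ X, |u - (x : ℝ)| < g) :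
    (D.card : ℝ) * (2 * ρ) * (ρ / g * Y.card) ^ 2 ≤ VV ρ g X Y c' := by
  classical
  obtain ⟨τ0, hτ1, hτ2, hmiss⟩ := hc
  have hg : 0 < g := lt_of_lt_of_le hρ hρg
  have hc'0 : 0 < c' := by linarith
  set S : ℕ → ℝ := fun d => sc fl c' * d with hS
  have hsc : l ≤ sc fl c' ∧ sc fl c' ≤ c' + 1 := by
    unfold sc
    split_ifs
    · exact ⟨hc1, by linarith⟩
    · exact ⟨hl1, by linarith⟩
  have hS0 : ∀ d ∈ D, 0 ≤ S d ∧ S d ≤ (c' + 1) * B := by
    intro d hd
    simp only [hS]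
    refine ⟨mul_nonneg (by linarith [hsc.1]) (Nat.cast_nonneg d), ?_⟩
    exact mul_le_mul hsc.2 (hDB d hd) (Nat.cast_nonneg d) (by linarith)
  -- pointwise
  have hpt : ∀ τ : ℝ, ∑ d ∈ D, (ρ / g * Y.card) ^ 2 * box ρ (τ - (τ0 - S d)) ≤ RR ρ g X Y c' τ ^ 2 := by
    intro τ
    by_cases hex : ∃ d ∈ D, |τ - (τ0 - S d)| < ρ
    · obtain ⟨d, hd, hdτ⟩ := hex
      have hone : ∑ d' ∈ D, (ρ / g * Y.card) ^ 2 * box ρ (τ - (τ0 - S d')) = (ρ / g * Y.card) ^ 2 := by
        rw [Finset.sum_eq_single_of_mem d hd, box_of_lt hdτ, mul_one]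
        intro d' hd' hne
        rw [box_of_ge, mul_zero]
        by_contra hlt
        rw [not_le] at hlt
        have h1 : |S d' - S d| < 2 * ρ := by
          have h2 : S d' - S d = (τ - (τ0 - S d')) - (τ - (τ0 - S d)) := by ring
          rw [h2]
          calc _ ≤ |τ - (τ0 - S d')| + |τ - (τ0 - S d)| := abs_sub _ _
            _ < 2 * ρ := by linarith
        have h3 : S d' - S d = sc fl c' * ((d' : ℝ) - d) := by simp only [hS]; ring
        rw [h3, abs_mul, abs_of_pos (by linarith [hsc.1] : 0 < sc fl c')] at h1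
        have h4 : (1 : ℝ) ≤ |(d' : ℝ) - d| := by
          have h5 : (1 : ℤ) ≤ |(d' : ℤ) - d| := Int.one_le_abs (by omega)
          have h6 : ((1 : ℤ) : ℝ) ≤ ((|(d' : ℤ) - d| : ℤ) : ℝ) := by exact_mod_cast h5
          push_cast at h6
          exact h6
        have h5 : l * 1 ≤ sc fl c' * |(d' : ℝ) - d| := mul_le_mul hsc.1 h4 (by norm_num) (by linarith [hsc.1])
        linarith
      rw [hone]
      have hdτ' := abs_lt.1 hdτ
      -- the fine count vanishes
      have hfine : ∀ p ∈ X ×ˢ Y, psi ρ g ((p.1 : ℝ) + c' * p.2 - τ) = -(ρ / g * box g ((p.1 : ℝ) + c' * p.2 - τ)) := by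
        intro p hp
        rw [mem_product] at hp
        have h1 := hmiss p.1 hp.1 p.2 hp.2 d hd
        have h2 : ρ ≤ |(p.1 : ℝ) + c' * p.2 - τ| := by
          by_contra hlt
          rw [not_le] at hlt
          have h3 : (p.1 : ℝ) + c * p.2 + sc fl c * d - τ0 =
              ((p.1 : ℝ) + c' * p.2 - τ) + (τ - (τ0 - S d)) + ((c - c') * p.2 + (sc fl c - sc fl c') * d) := by
            simp only [hS]; ring
          have h4 : |(c - c') * (p.2 : ℝ) + (sc fl c - sc fl c') * d| ≤ ρ := by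
            have h5 : |(c - c') * (p.2 : ℝ)| ≤ h * B := by
              rw [abs_mul, abs_sub_comm, Nat.abs_cast]
              exact mul_le_mul hcc (hYB _ hp.2) (Nat.cast_nonneg _) (le_trans (abs_nonneg _) hcc)
            have h6 : |(sc fl c - sc fl c') * (d : ℝ)| ≤ h * B := by
              rw [abs_mul, Nat.abs_cast]
              have h7 : |sc fl c - sc fl c'| ≤ h := by
                unfold sc
                split_ifs
                · rw [abs_sub_comm]; exact hcc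
                · rw [sub_self, abs_zero]; exact le_trans (abs_nonneg _) hcc
              exact mul_le_mul h7 (hDB _ hd) (Nat.cast_nonneg _) (le_trans (abs_nonneg _) hcc)
            calc _ ≤ |(c - c') * (p.2 : ℝ)| + |(sc fl c - sc fl c') * (d : ℝ)| := abs_add_le _ _
              _ ≤ h * B + h * B := add_le_add h5 h6
              _ = h * (2 * B) := by ring
              _ ≤ ρ := hh
          have h5 : |(p.1 : ℝ) + c * p.2 + sc fl c * d - τ0| < 3 * ρ := by
            rw [h3]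
            rw [abs_lt] at hlt ⊢
            rw [abs_le] at h4
            constructor <;> linarith [hlt.1, hlt.2, h4.1, h4.2, hdτ'.1, hdτ'.2]
          linarith
        unfold psi
        rw [box_of_ge h2]
        ring
      have hRR : RR ρ g X Y c' τ = -(ρ / g * ∑ p ∈ X ×ˢ Y, box g ((p.1 : ℝ) + c' * p.2 - τ)) := by
        unfold RR
        rw [sum_congr rfl hfine, sum_neg_distrib, mul_sum]
      -- the coarse count is large
      have hcoarse : (Y.card : ℝ) ≤ ∑ p ∈ X ×ˢ Y, box g ((p.1 : ℝ) + c' * p.2 - τ) := by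
        rw [sum_product_right]
        have h1 : ∀ y ∈ Y, (1 : ℝ) ≤ ∑ x ∈ X, box g ((x : ℝ) + c' * y - τ) := by
          intro y hy
          have hy1 : 0 ≤ c' * (y : ℝ) := by positivity
          have hy2 : c' * (y : ℝ) ≤ (c' + 1) * B := by
            refine mul_le_mul (by linarith) (hYB y hy) (Nat.cast_nonneg _) (by linarith)
          obtain ⟨hs1, hs2⟩ := hS0 d hd
          obtain ⟨x, hx, hxu⟩ := hcov (τ - c' * y) (by linarith) (by linarith)
          have h2 : box g ((x : ℝ) + c' * y - τ) = 1 := by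
            refine box_of_lt ?_
            rw [abs_sub_comm] at hxu
            have : (x : ℝ) + c' * y - τ = x - (τ - c' * y) := by ring
            rw [this]
            exact hxu
          calc (1 : ℝ) = box g ((x : ℝ) + c' * y - τ) := h2.symm
            _ ≤ _ := Finset.single_le_sum (f := fun x : ℕ => box g ((x : ℝ) + c' * y - τ))
              (fun x _ => box_nonneg _ _) hx
        calc (Y.card : ℝ) = ∑ y ∈ Y, (1 : ℝ) := by rw [sum_const, nsmul_eq_mul, mul_one]
          _ ≤ _ := sum_le_sum h1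
      rw [hRR, neg_sq]
      refine pow_le_pow_left₀ (by positivity) ?_ 2
      exact mul_le_mul_of_nonneg_left hcoarse (by positivity)
    · have hzero : ∑ d ∈ D, (ρ / g * Y.card) ^ 2 * box ρ (τ - (τ0 - S d)) = 0 := by
        refine sum_eq_zero fun d hd => ?_
        rw [box_of_ge, mul_zero]
        by_contra h1
        exact hex ⟨d, hd, not_le.1 h1⟩
      rw [hzero]
      exact sq_nonneg _
  have hint : ∀ d : ℕ, Integrable fun τ : ℝ => (ρ / g * Y.card) ^ 2 * box ρ (τ - (τ0 - S d)) := by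
    intro d
    exact ((integrable_box ρ).comp_sub_right _).const_mul _
  rw [← integral_RR_sq hρ hρg]
  calc (D.card : ℝ) * (2 * ρ) * (ρ / g * Y.card) ^ 2
      = ∫ τ, ∑ d ∈ D, (ρ / g * Y.card) ^ 2 * box ρ (τ - (τ0 - S d)) := by
        rw [integral_finsetSum _ fun d _ => hint d]
        have h1 : ∀ d ∈ D, ∫ τ, (ρ / g * Y.card) ^ 2 * box ρ (τ - (τ0 - S d)) = (ρ / g * Y.card) ^ 2 * (2 * ρ) := by
          intro d _
          rw [integral_const_mul, integral_sub_right_eq_self (box ρ), integral_box hρ.le]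
        rw [sum_congr rfl h1, sum_const, nsmul_eq_mul]
        ring
    _ ≤ _ := integral_mono (integrable_finsetSum _ fun d _ => hint d) (integrable_RR_sq hρ hρg X Y c') hpt

/-- the cells of the line -/
def cell (N : ℕ) (z : ℕ) : Set ℝ := Set.Ico ((z : ℝ) / N) (((z : ℝ) + 1) / N)

open Classical in
/-- the cells which contain a bad ratio of the interval `[1 / L, L]` -/
noncomputable def FC (fl : Bool) (ρ A A' : ℝ) (X Y D : Finset ℕ) (L N : ℕ) : Finset ℕ :=
  (range (L * N + 1)).filter fun z => ∃ c ∈ Bad fl ρ A A' X Y D, 1 / (L : ℝ) ≤ c ∧ c ≤ L ∧ c ∈ cell N z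

lemma cell_cover (fl : Bool) (ρ A A' : ℝ) (X Y D : Finset ℕ) (L N : ℕ) (hN : 0 < N) {c : ℝ} (hc : c ∈ Bad fl ρ A A' X Y D)
    (h1 : 1 / (L : ℝ) ≤ c) (h2 : c ≤ L) : ∃ z ∈ FC fl ρ A A' X Y D L N, c ∈ cell N z := by
  classical
  have hN0 : (0 : ℝ) < N := by exact_mod_cast hN
  have hc0 : 0 ≤ c := le_trans (by positivity) h1
  have hmem : c ∈ cell N ⌊c * N⌋₊ := by
    unfold cell
    rw [Set.mem_Ico, div_le_iff₀ hN0, lt_div_iff₀ hN0]
    exact ⟨Nat.floor_le (by positivity), Nat.lt_floor_add_one _⟩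
  refine ⟨⌊c * N⌋₊, ?_, hmem⟩
  unfold FC
  rw [mem_filter, mem_range]
  refine ⟨?_, c, hc, h1, h2, hmem⟩
  have h3 : c * N ≤ ((L * N : ℕ) : ℝ) := by
    push_cast
    exact mul_le_mul_of_nonneg_right h2 hN0.le
  have h4 : ⌊c * N⌋₊ ≤ L * N := Nat.floor_le_of_le h3
  omega

lemma cell_diam (N z : ℕ) (hN : 0 < N) : Metric.ediam (cell N z) ≤ ENNReal.ofReal (1 / N) := by
  have hN0 : (0 : ℝ) < N := by exact_mod_cast hN
  unfold cell
  rw [Real.ediam_Ico]
  refine ENNReal.ofReal_le_ofReal (le_of_eq ?_)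
  ring

/-- the number of cells is at most `N` times the measure of the set of the ratios with a large second moment -/
lemma FC_card (fl : Bool) (ρ A A' : ℝ) (X Y D : Finset ℕ) (L N : ℕ) (hL : 1 ≤ L) (hN : 2 * L ≤ N) (T : Set ℝ)
    (hT : ∀ c ∈ Bad fl ρ A A' X Y D, ∀ c' : ℝ, |c' - c| ≤ 1 / N → 1 / (2 * (L : ℝ)) ≤ c' → c' ≤ L + 1 → c' ∈ T) :
    ENNReal.ofReal (((FC fl ρ A A' X Y D L N).card : ℝ) / N) ≤
      volume (T ∩ Set.Icc (1 / (2 * (L : ℝ))) ((L : ℝ) + 1)) := by
  classical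
  have hL0 : (1 : ℝ) ≤ L := by exact_mod_cast hL
  have hN0 : (0 : ℝ) < N := by
    have : 0 < N := by omega
    exact_mod_cast this
  have hNL : 2 * (L : ℝ) ≤ N := by exact_mod_cast hN
  have hinv : 1 / (N : ℝ) ≤ 1 / (2 * L) := one_div_le_one_div_of_le (by linarith) hNL
  have hsub : (⋃ z ∈ FC fl ρ A A' X Y D L N, cell N z) ⊆ T ∩ Set.Icc (1 / (2 * (L : ℝ))) ((L : ℝ) + 1) := by
    intro c' hc'
    simp only [Set.mem_iUnion] at hc'
    obtain ⟨z, hz, hzc⟩ := hc'
    unfold FC at hz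
    rw [mem_filter] at hz
    obtain ⟨_, c, hc, h1, h2, h3⟩ := hz
    unfold cell at h3 hzc
    rw [Set.mem_Ico] at h3 hzc
    have e1 : ((z : ℝ) + 1) / N = (z : ℝ) / N + 1 / N := by ring
    rw [e1] at h3 hzc
    have h4 : |c' - c| ≤ 1 / N := by
      rw [abs_le]
      constructor <;> linarith [h3.1, h3.2, hzc.1, hzc.2]
    have h4' := abs_le.1 h4
    have e2 : 1 / (L : ℝ) = 1 / (2 * L) + 1 / (2 * L) := by
      field_simp
      norm_num
    have h5 : 1 / (2 * (L : ℝ)) ≤ c' := by linarith [h4'.1]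
    have h6 : 1 / (2 * (L : ℝ)) ≤ 1 := by
      rw [div_le_one (by linarith)]
      linarith
    have h7 : c' ≤ (L : ℝ) + 1 := by linarith [h4'.2]
    exact ⟨hT c hc c' h4 h5 h7, h5, h7⟩
  refine le_trans ?_ (measure_mono hsub)
  rw [measure_biUnion_finset]
  · have h1 : ∀ z ∈ FC fl ρ A A' X Y D L N, volume (cell N z) = ENNReal.ofReal (1 / N) := by
      intro z _
      unfold cell
      rw [Real.volume_Ico]
      congr 1
      ring
    rw [sum_congr rfl h1, sum_const, nsmul_eq_mul, div_eq_mul_one_div, ENNReal.ofReal_mul (Nat.cast_nonneg _),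
      ENNReal.ofReal_natCast]
  · intro z _ w _ hzw
    rw [Function.onFun, Set.disjoint_left]
    intro x hx hy
    apply hzw
    unfold cell at hx hy
    simp only [Set.mem_Ico, div_le_iff₀ hN0, lt_div_iff₀ hN0] at hx hy
    have h3 : (z : ℝ) < w + 1 := by linarith [hx.1, hy.2]
    have h4 : (w : ℝ) < z + 1 := by linarith [hy.1, hx.2]
    have h5 : z < w + 1 := by exact_mod_cast h3
    have h6 : w < z + 1 := by exact_mod_cast h4
    omega
  · intro z _
    exact measurableSet_Ico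

/-- Markov's inequality for the second moment -/
lemma markov {ρ g : ℝ} (hρ : 0 < ρ) (hρg : ρ ≤ g) {p0 p1 : ℝ} (hp : p0 ≤ p1) (X Y : Finset ℕ) {W : ℝ} (hW : 0 < W) :
    volume ({c | W ≤ VV ρ g X Y c} ∩ Set.Icc p0 p1) ≤ ENNReal.ofReal ((∫ c in p0..p1, VV ρ g X Y c) / W) := by
  have hi := intervalIntegrable_VV ρ g X Y p0 p1
  rw [intervalIntegrable_iff_integrableOn_Icc_of_le hp] at hi
  have h1 := mul_meas_ge_le_integral_of_nonneg (μ := volume.restrict (Set.Icc p0 p1)) (f := VV ρ g X Y)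
    (Filter.Eventually.of_forall fun c => VV_nonneg hρ hρg X Y c) hi W
  have h2 : (volume.restrict (Set.Icc p0 p1)) {c | W ≤ VV ρ g X Y c} = volume ({c | W ≤ VV ρ g X Y c} ∩ Set.Icc p0 p1) :=
    Measure.restrict_apply' measurableSet_Icc
  have h3 : volume ({c | W ≤ VV ρ g X Y c} ∩ Set.Icc p0 p1) ≠ ⊤ := by
    refine ne_top_of_le_ne_top ?_ (measure_mono Set.inter_subset_right)
    rw [Real.volume_Icc]
    exact ENNReal.ofReal_ne_top
  rw [← ENNReal.ofReal_toReal h3]
  refine ENNReal.ofReal_le_ofReal ?_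
  rw [le_div_iff₀ hW, mul_comm]
  rw [Measure.real, h2] at h1
  refine h1.trans (le_of_eq ?_)
  rw [intervalIntegral.integral_of_le hp, integral_Icc_eq_integral_Ioc]

end Pool.Agent.D0H17.MR
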