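import Mathlib

set_option autoImplicit false

/-! The autocorrelation of the difference of a fine and a coarse box. -/

namespace Pool.Agent.D0H17.MR

open MeasureTheory

/-- the box `(-a, a)` -/
noncomputable def box (a : ℝ) (s : ℝ) : ℝ := (Set.Ioo (-a) a).indicator (fun _ => (1 : ℝ)) s

/-- fine box minus the coarse box with the same integral -/
noncomputable def psi (ρ g : ℝ) (s : ℝ) : ℝ := box ρ s - ρ / g * box g s

lemma box_of_lt {a s : ℝ} (h : |s| < a) : box a s = 1 := by
  unfold box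
  rw [Set.indicator_of_mem]
  exact abs_lt.1 h

lemma box_of_ge {a s : ℝ} (h : a ≤ |s|) : box a s = 0 := by
  unfold box
  rw [Set.indicator_of_notMem]
  intro h1
  exact absurd (abs_lt.2 h1) (not_lt.2 h)

lemma box_nonneg (a s : ℝ) : 0 ≤ box a s := by
  unfold box
  exact Set.indicator_nonneg (fun _ _ => zero_le_one) s

lemma box_le_one (a s : ℝ) : box a s ≤ 1 := by
  rcases lt_or_ge |s| a with h | h
  · rw [box_of_lt h]
  · rw [box_of_ge h]; norm_num

lemma box_neg (a s : ℝ) : box a (-s) = box a s := by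
  rcases lt_or_ge |s| a with h | h
  · rw [box_of_lt h, box_of_lt (by rwa [abs_neg])]
  · rw [box_of_ge h, box_of_ge (by rwa [abs_neg])]

lemma measurable_box (a : ℝ) : Measurable (box a) := measurable_const.indicator measurableSet_Ioo

lemma integrable_box (a : ℝ) : Integrable (box a) := by
  unfold box
  refine (integrable_indicator_iff measurableSet_Ioo).2 ?_
  exact integrableOn_const (by simp)

lemma integral_box {a : ℝ} (ha : 0 ≤ a) : ∫ s, box a s = 2 * a := by
  unfold box
  rw [integral_indicator measurableSet_Ioo, setIntegral_const, smul_eq_mul, mul_one, Measure.real,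
    Real.volume_Ioo, ENNReal.toReal_ofReal (by linarith)]
  ring

lemma integrable_psi (ρ g : ℝ) : Integrable (psi ρ g) := (integrable_box ρ).sub ((integrable_box g).const_mul _)

lemma measurable_psi (ρ g : ℝ) : Measurable (psi ρ g) := (measurable_box ρ).sub ((measurable_box g).const_mul _)

lemma integral_psi {ρ g : ℝ} (hρ : 0 < ρ) (hg : 0 < g) : ∫ s, psi ρ g s = 0 := by
  unfold psi
  rw [integral_sub (integrable_box ρ) ((integrable_box g).const_mul _), integral_const_mul, integral_box hρ.le,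
    integral_box hg.le]
  field_simp
  ring

lemma psi_neg (ρ g s : ℝ) : psi ρ g (-s) = psi ρ g s := by
  unfold psi
  rw [box_neg, box_neg]

lemma psi_zero {ρ g s : ℝ} (hρg : ρ ≤ g) (h : g ≤ |s|) : psi ρ g s = 0 := by
  unfold psi
  rw [box_of_ge h, box_of_ge (hρg.trans h)]
  ring

lemma abs_psi_le {ρ g : ℝ} (hρ : 0 < ρ) (hρg : ρ ≤ g) (s : ℝ) : |psi ρ g s| ≤ 1 := by
  have hg : 0 < g := lt_of_lt_of_le hρ hρg
  have h1 := box_nonneg ρ s
  have h2 := box_le_one ρ s
  have h3 := box_nonneg g s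
  have h4 := box_le_one g s
  have h5 : 0 ≤ ρ / g := by positivity
  have h6 : ρ / g ≤ 1 := by
    rw [div_le_one hg]
    exact hρg
  have h7 : 0 ≤ ρ / g * box g s := mul_nonneg h5 h3
  have h8 : ρ / g * box g s ≤ 1 := by
    calc ρ / g * box g s ≤ 1 * 1 := mul_le_mul h6 h4 h3 (by norm_num)
      _ = 1 := by norm_num
  unfold psi
  rw [abs_le]
  constructor <;> linarith

lemma integral_abs_psi {ρ g : ℝ} (hρ : 0 < ρ) (hρg : ρ ≤ g) : ∫ s, |psi ρ g s| ≤ 4 * ρ := by
  have hg : 0 < g := lt_of_lt_of_le hρ hρg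
  have h5 : 0 ≤ ρ / g := by positivity
  have h1 : ∫ s, |psi ρ g s| ≤ ∫ s, (box ρ s + ρ / g * box g s) := by
    refine integral_mono (integrable_psi ρ g).abs ((integrable_box ρ).add ((integrable_box g).const_mul _)) fun s => ?_
    unfold psi
    have e1 := box_nonneg ρ s
    have e2 := mul_nonneg h5 (box_nonneg g s)
    show |box ρ s - ρ / g * box g s| ≤ box ρ s + ρ / g * box g s
    rw [abs_le]
    constructor <;> linarith
  refine h1.trans (le_of_eq ?_)
  rw [integral_add (integrable_box ρ) ((integrable_box g).const_mul _), integral_const_mul, integral_box hρ.le,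
    integral_box hg.le]
  field_simp
  ring

/-- the autocorrelation -/
noncomputable def AC (ρ g : ℝ) (z : ℝ) : ℝ := ∫ s, psi ρ g s * psi ρ g (z - s)

lemma AC_eq (ρ g : ℝ) : AC ρ g = convolution (psi ρ g) (psi ρ g) (ContinuousLinearMap.mul ℝ ℝ) volume := by
  funext z
  rfl

lemma integrable_AC (ρ g : ℝ) : Integrable (AC ρ g) := by
  rw [AC_eq]
  exact (integrable_psi ρ g).integrable_convolution (ContinuousLinearMap.mul ℝ ℝ) (integrable_psi ρ g)

lemma integral_AC {ρ g : ℝ} (hρ : 0 < ρ) (hg : 0 < g) : ∫ z, AC ρ g z = 0 := by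
  rw [AC_eq, integral_convolution (ContinuousLinearMap.mul ℝ ℝ) (integrable_psi ρ g) (integrable_psi ρ g)]
  rw [integral_psi hρ hg]
  simp

lemma integral_abs_AC {ρ g : ℝ} (hρ : 0 < ρ) (hρg : ρ ≤ g) : ∫ z, |AC ρ g z| ≤ 16 * ρ ^ 2 := by
  have h0 : Integrable (convolution (fun s => |psi ρ g s|) (fun s => |psi ρ g s|) (ContinuousLinearMap.mul ℝ ℝ) volume) :=
    (integrable_psi ρ g).abs.integrable_convolution (ContinuousLinearMap.mul ℝ ℝ) (integrable_psi ρ g).abs
  have h1 : ∫ z, |AC ρ g z| ≤ ∫ z, convolution (fun s => |psi ρ g s|) (fun s => |psi ρ g s|)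
      (ContinuousLinearMap.mul ℝ ℝ) volume z := by
    refine integral_mono (integrable_AC ρ g).abs h0 fun z => ?_
    show |∫ s, psi ρ g s * psi ρ g (z - s)| ≤ ∫ s, |psi ρ g s| * |psi ρ g (z - s)|
    refine (abs_integral_le_integral_abs).trans (le_of_eq ?_)
    simp_rw [abs_mul]
  refine h1.trans ?_
  rw [integral_convolution (ContinuousLinearMap.mul ℝ ℝ) (integrable_psi ρ g).abs (integrable_psi ρ g).abs]
  have h2 := integral_abs_psi hρ hρg
  have h3 : 0 ≤ ∫ s, |psi ρ g s| := integral_nonneg fun _ => abs_nonneg _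
  show (∫ s, |psi ρ g s|) * (∫ s, |psi ρ g s|) ≤ 16 * ρ ^ 2
  nlinarith

lemma AC_zero {ρ g z : ℝ} (hρg : ρ ≤ g) (hz : 2 * g ≤ |z|) : AC ρ g z = 0 := by
  unfold AC
  have h : ∀ s, psi ρ g s * psi ρ g (z - s) = 0 := by
    intro s
    rcases lt_or_ge |s| g with h1 | h1
    · have h2 : g ≤ |z - s| := by
        have := abs_sub_abs_le_abs_sub z s
        linarith
      rw [psi_zero hρg h2, mul_zero]
    · rw [psi_zero hρg h1, zero_mul]
  simp_rw [h]
  simp

lemma abs_AC_le {ρ g : ℝ} (hρ : 0 < ρ) (hρg : ρ ≤ g) (z : ℝ) : |AC ρ g z| ≤ 4 * ρ := by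
  unfold AC
  refine (abs_integral_le_integral_abs).trans ?_
  refine le_trans ?_ (integral_abs_psi hρ hρg)
  have hmeas : Measurable fun s => psi ρ g (z - s) := (measurable_psi ρ g).comp (measurable_const.sub measurable_id)
  refine integral_mono_of_nonneg (Filter.Eventually.of_forall fun _ => abs_nonneg _) (integrable_psi ρ g).abs
    (Filter.Eventually.of_forall fun s => ?_)
  show |psi ρ g s * psi ρ g (z - s)| ≤ |psi ρ g s|
  rw [abs_mul]
  exact mul_le_of_le_one_right (abs_nonneg _) (abs_psi_le hρ hρg _)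

lemma AC_pair (ρ g p q : ℝ) : ∫ τ, psi ρ g (p - τ) * psi ρ g (q - τ) = AC ρ g (p - q) := by
  unfold AC
  have h1 := integral_sub_left_eq_self (fun s => psi ρ g s * psi ρ g (p - q - s)) volume p
  rw [← h1]
  refine integral_congr_ae (Filter.Eventually.of_forall fun τ => ?_)
  show psi ρ g (p - τ) * psi ρ g (q - τ) = psi ρ g (p - τ) * psi ρ g (p - q - (p - τ))
  have h2 : p - q - (p - τ) = -(q - τ) := by ring
  rw [h2, psi_neg]

lemma integrable_pair (ρ g p q : ℝ) (hρ : 0 < ρ) (hρg : ρ ≤ g) : Integrable fun τ => psi ρ g (p - τ) * psi ρ g (q - τ) := by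
  have h1 : Integrable fun τ => psi ρ g (p - τ) := (integrable_psi ρ g).comp_sub_left p
  refine Integrable.mul_of_top_left h1 ?_
  refine memLp_top_of_bound ((measurable_psi ρ g).comp (measurable_const.sub measurable_id)).aestronglyMeasurable 1
    (Filter.Eventually.of_forall fun τ => ?_)
  exact abs_psi_le hρ hρg _

lemma integral_AC_interval {ρ g : ℝ} (hρ : 0 < ρ) (hρg : ρ ≤ g) {s t : ℝ} (hs : 2 * g ≤ |s|) (ht : 2 * g ≤ |t|) (hst : s ≤ t) :
    ∫ z in s..t, AC ρ g z = 0 := by
  have hg : 0 < g := lt_of_lt_of_le hρ hρg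
  by_cases h : s ≤ -(2 * g) ∧ 2 * g ≤ t
  · rw [intervalIntegral.integral_of_le hst, setIntegral_eq_integral_of_forall_compl_eq_zero, integral_AC hρ hg]
    intro z hz
    apply AC_zero hρg
    rw [Set.mem_Ioc, not_and_or, not_lt, not_le] at hz
    rcases hz with h1 | h1
    · rw [abs_of_nonpos (by linarith [h.1])]
      linarith [h.1]
    · rw [abs_of_pos (by linarith [h.2])]
      linarith [h.2]
  · have h0 : ∀ z ∈ Set.uIcc s t, AC ρ g z = 0 := by
      intro z hz
      rw [Set.uIcc_of_le hst, Set.mem_Icc] at hz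
      apply AC_zero hρg
      rcases le_total 0 s with h1 | h1
      · rw [abs_of_nonneg h1] at hs
        rw [abs_of_nonneg (by linarith)]
        linarith
      · rw [abs_of_nonpos h1] at hs
        have h2 : t < 2 * g := by
          by_contra h3
          exact h ⟨by linarith, not_lt.1 h3⟩
        have h3 : t ≤ 0 := by
          by_contra h4
          rw [abs_of_pos (not_le.1 h4)] at ht
          linarith
        rw [abs_of_nonpos h3] at ht
        rw [abs_of_nonpos (by linarith)]
        linarith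
    rw [intervalIntegral.integral_congr h0]
    simp

lemma abs_integral_AC_interval {ρ g : ℝ} (hρ : 0 < ρ) (hρg : ρ ≤ g) (s t : ℝ) :
    |∫ z in s..t, AC ρ g z| ≤ 16 * ρ ^ 2 := by
  refine le_trans ?_ (integral_abs_AC hρ hρg)
  rw [intervalIntegral.abs_integral_eq_abs_integral_uIoc]
  refine (abs_integral_le_integral_abs).trans ?_
  exact setIntegral_le_integral (integrable_AC ρ g).abs (Filter.Eventually.of_forall fun _ => abs_nonneg _)

/-- the average over the ratio, different second coordinates -/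
lemma average_ne {ρ g : ℝ} (hρ : 0 < ρ) (hρg : ρ ≤ g) {p0 p1 : ℝ} (hp : p0 ≤ p1) (u w : ℝ) (hw : w ≠ 0) :
    |∫ c in p0..p1, AC ρ g (u + c * w)| ≤ 16 * ρ ^ 2 / |w| ∧
    (2 * g ≤ |u + p0 * w| → 2 * g ≤ |u + p1 * w| → ∫ c in p0..p1, AC ρ g (u + c * w) = 0) := by
  have h1 : ∫ c in p0..p1, AC ρ g (u + c * w) = w⁻¹ * ∫ z in (u + w * p0)..(u + w * p1), AC ρ g z := by
    have h2 := intervalIntegral.integral_comp_add_mul (a := p0) (b := p1) (AC ρ g) hw u
    simp only [smul_eq_mul] at h2
    rw [← h2]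
    refine intervalIntegral.integral_congr fun c _ => ?_
    show AC ρ g (u + c * w) = AC ρ g (u + w * c)
    rw [mul_comm c w]
  constructor
  · rw [h1, abs_mul, abs_inv, div_eq_inv_mul]
    exact mul_le_mul_of_nonneg_left (abs_integral_AC_interval hρ hρg _ _) (by positivity)
  · intro h2 h3
    rw [h1]
    rw [mul_comm p0] at h2
    rw [mul_comm p1] at h3
    rcases lt_or_gt_of_ne hw with h | h
    · have h4 : u + w * p1 ≤ u + w * p0 := by nlinarith
      rw [intervalIntegral.integral_symm, integral_AC_interval hρ hρg h3 h2 h4]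
      simp
    · have h4 : u + w * p0 ≤ u + w * p1 := by nlinarith
      rw [integral_AC_interval hρ hρg h2 h3 h4]
      simp

end Pool.Agent.D0H17.MR
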