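import Pool.Agent.D0H17.MR.One

set_option autoImplicit false

/-! The Hausdorff dimension of the set of bad ratios. -/

namespace Pool.Agent.D0H17.MR

open Finset MeasureTheory Filter Pool.Agent.D0H17.MW
open scoped ENNReal

lemma xcard {x U G q E A K : ℝ} (hG : 1 ≤ G) (hK : 1 ≤ K) (hA : 1 ≤ A) (hq : 1 ≤ q) (hE : 1 ≤ E) (hU : U = A * q)
    (hx : x ≤ U / G + 1) (hGU : G ≤ U) (hGE : G ≤ 2 * K * A * E) : x * (3 * G) ^ 2 ≤ 36 * K * A ^ 2 * (q * E) := by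
  have h1 : 1 ≤ U / G := by
    rw [le_div_iff₀ (by linarith)]
    linarith
  have h2 : x ≤ 2 * (U / G) := by linarith
  have hU0 : 0 < U := by linarith
  calc x * (3 * G) ^ 2 ≤ 2 * (U / G) * (3 * G) ^ 2 := mul_le_mul_of_nonneg_right h2 (by positivity)
    _ = 18 * U * G := by field_simp; ring
    _ ≤ 18 * U * (2 * K * A * E) := mul_le_mul_of_nonneg_left hGE (by linarith)
    _ = 36 * K * A ^ 2 * (q * E) := by rw [hU]; ring

lemma ratio_bound {z y d q C c₂ c₃ e₁ e₂ e₃ : ℝ} (hq : 1 ≤ q) (hC : 0 ≤ C) (hc₂ : 0 < c₂) (hc₃ : 0 < c₃)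
    (hz : z ≤ C * (q * q ^ e₁)) (hy : c₂ * q ^ (1 - e₂) ≤ y) (hd : c₃ * q ^ (1 - e₃) ≤ d) (hz0 : 0 ≤ z) :
    z / (y * d) ≤ C / (c₂ * c₃) * q ^ (-(1 - e₁ - e₂ - e₃)) := by
  have hq0 : 0 < q := by linarith
  have h1 : 0 < c₂ * q ^ (1 - e₂) := by positivity
  have h2 : 0 < c₃ * q ^ (1 - e₃) := by positivity
  have h3 : c₂ * q ^ (1 - e₂) * (c₃ * q ^ (1 - e₃)) ≤ y * d := mul_le_mul hy hd h2.le (h1.le.trans hy)
  have h4 : z / (y * d) ≤ C * (q * q ^ e₁) / (c₂ * q ^ (1 - e₂) * (c₃ * q ^ (1 - e₃))) :=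
    div_le_div₀ (by positivity) hz (mul_pos h1 h2) h3
  refine h4.trans (le_of_eq ?_)
  have h5 : q * q ^ e₁ = q ^ (-(1 - e₁ - e₂ - e₃)) * (q ^ (1 - e₂) * q ^ (1 - e₃)) := by
    rw [← Real.rpow_add hq0, ← Real.rpow_add hq0]
    nth_rw 1 [← Real.rpow_one q]
    rw [← Real.rpow_add hq0]
    congr 1
    ring
  rw [h5]
  have h6 : 0 < q ^ (1 - e₂) := by positivity
  have h7 : 0 < q ^ (1 - e₃) := by positivity
  field_simp

lemma pow_two_rpow (n j : ℕ) (a : ℝ) : ((2 : ℝ) ^ j) ^ (((n : ℝ) + 2) * a) = (((2 : ℝ) ^ j) ^ (n + 2)) ^ a := by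
  rw [← Real.rpow_natCast ((2 : ℝ) ^ j) (n + 2), ← Real.rpow_mul (by positivity)]
  push_cast
  rfl

theorem dimR (n t₁ t₂ t₃ L h : ℕ) (hL : 1 ≤ L) (hh : 1 ≤ h) (fl : Bool) (D : ℝ)
    (hD : dl n ^ t₁ + dl n ^ t₂ + dl n ^ t₃ < D) (hD1 : D < 1)
    (𝒴 𝒟 : ℕ → Finset ℕ) (h𝒴 : ∀ j, ∀ b ∈ 𝒴 j, b ≤ (2 ^ j) ^ (n + 2))
    (h𝒟 : ∀ j, ∀ b ∈ 𝒟 j, b ≤ (2 ^ j) ^ (n + 2)) (c₂ c₃ : ℝ) (hc₂ : 0 < c₂) (hc₃ : 0 < c₃) (j0 : ℕ)
    (hcard₂ : ∀ j, j0 ≤ j → c₂ * ((2 : ℝ) ^ j) ^ (((n : ℝ) + 2) * (1 - dl n ^ t₂)) ≤ ((𝒴 j).card : ℝ))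
    (hcard₃ : ∀ j, j0 ≤ j → c₃ * ((2 : ℝ) ^ j) ^ (((n : ℝ) + 2) * (1 - dl n ^ t₃)) ≤ ((𝒟 j).card : ℝ)) :
    ∃ 𝒳 : ℕ → Finset ℕ, (∀ j, ∀ b ∈ 𝒳 j, ∃ x : Fin t₁ → ℕ, (∀ i, 1 ≤ x i) ∧ b = ∑ i, x i ^ (n + 2)) ∧
      dimH {c : ℝ | ∃ᶠ j in atTop, c ∈ Bad fl (1 / (8 * L * h)) ((2 * L + 6) * ((2 : ℝ) ^ j) ^ (n + 2))
        (2 ^ (n + 2) * (2 * L + 6) * ((2 : ℝ) ^ j) ^ (n + 2)) (𝒳 j) (𝒴 j) (𝒟 j) ∧ 1 / (L : ℝ) ≤ c ∧ c ≤ L} ≤
        ENNReal.ofReal D := by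
  obtain ⟨hd0, hd1⟩ := dl_mem n
  obtain ⟨K, u0, hK, hu0, hco⟩ := coarse n t₁
  have hL0 : (1 : ℝ) ≤ L := by exact_mod_cast hL
  have hh0 : (1 : ℝ) ≤ h := by exact_mod_cast hh
  set e₁ : ℝ := dl n ^ t₁ with he₁
  set e₂ : ℝ := dl n ^ t₂ with he₂
  set e₃ : ℝ := dl n ^ t₃ with he₃
  have he10 : 0 < e₁ := pow_pos hd0 _
  have he20 : 0 < e₂ := pow_pos hd0 _
  have he30 : 0 < e₃ := pow_pos hd0 _
  have he11 : e₁ < 1 := by linarith
  set A1 : ℝ := 2 * L + 6 with hA1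
  set A2 : ℝ := 2 ^ (n + 2) * A1 with hA2
  have hA10 : 0 < A1 := by simp only [hA1]; positivity
  have hA20 : 0 < A2 := by simp only [hA2]; positivity
  set ρ : ℝ := 1 / (8 * L * h) with hρ
  have hρ0 : 0 < ρ := by simp only [hρ]; positivity
  have hLh : (1 : ℝ) ≤ L * h := one_le_mul_of_one_le_of_one_le hL0 hh0
  have hρ1 : ρ ≤ 1 := by
    simp only [hρ]
    rw [div_le_one (by positivity)]
    nlinarith
  set q : ℕ → ℝ := fun j => ((2 : ℝ) ^ j) ^ (n + 2) with hq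
  have hq1 : ∀ j, 1 ≤ q j := fun j => one_le_pow₀ (one_le_pow₀ (by norm_num))
  set U : ℕ → ℝ := fun j => (A2 + 1) * q j with hU
  have hU1 : ∀ j, 1 ≤ U j := fun j => one_le_mul_of_one_le_of_one_le (by linarith) (hq1 j)
  set G : ℕ → ℕ := fun j => ⌈K * U j ^ e₁⌉₊ with hG
  have hKU : ∀ j, 1 ≤ K * U j ^ e₁ := fun j => one_le_mul_of_one_le_of_one_le hK (Real.one_le_rpow (hU1 j) he10.le)
  have hG1 : ∀ j, 1 ≤ G j := fun j => Nat.one_le_ceil_iff.2 (by linarith [hKU j])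
  have hG1r : ∀ j, (1 : ℝ) ≤ G j := fun j => by exact_mod_cast hG1 j
  have hGle : ∀ j, K * U j ^ e₁ ≤ G j := fun j => Nat.le_ceil _
  have hGup : ∀ j, (G j : ℝ) ≤ 2 * K * (A2 + 1) * q j ^ e₁ := by
    intro j
    have h1 : (G j : ℝ) < K * U j ^ e₁ + 1 := Nat.ceil_lt_add_one (by linarith [hKU j])
    have h2 : U j ^ e₁ ≤ (A2 + 1) * q j ^ e₁ := by
      simp only [hU]
      rw [Real.mul_rpow (by linarith) (by linarith [hq1 j])]
      refine mul_le_mul_of_nonneg_right ?_ (Real.rpow_nonneg (by linarith [hq1 j]) _)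
      calc (A2 + 1) ^ e₁ ≤ (A2 + 1) ^ (1 : ℝ) := Real.rpow_le_rpow_of_exponent_le (by linarith) he11.le
        _ = A2 + 1 := Real.rpow_one _
    have h3 : K * U j ^ e₁ ≤ K * ((A2 + 1) * q j ^ e₁) := mul_le_mul_of_nonneg_left h2 (by linarith)
    have h4 := hKU j
    linarith
  choose 𝒳 h𝒳1 h𝒳2 h𝒳3 h𝒳4 using fun j => hco (U j) (G j) (by linarith [hU1 j]) (hG1 j) (hGle j)
  refine ⟨𝒳, h𝒳1, ?_⟩
  -- the grid
  set N : ℕ → ℕ := fun j => 16 * L * h * (2 ^ j) ^ (n + 2) with hN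
  have hNr : ∀ j, (N j : ℝ) = 16 * L * h * q j := by
    intro j
    simp only [hN, hq]
    push_cast
    ring
  have hNpos : ∀ j, 0 < N j := by
    intro j
    simp only [hN]
    positivity
  have hN2L : ∀ j, 2 * L ≤ N j := by
    intro j
    simp only [hN]
    have h1 : 1 ≤ (2 ^ j) ^ (n + 2) := Nat.one_le_pow _ _ (by positivity)
    calc 2 * L = 2 * L * 1 * 1 := by ring
      _ ≤ 16 * L * h * (2 ^ j) ^ (n + 2) := by gcongr; omega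
  have hD0 : 0 < D := by linarith
  have hmono : {c : ℝ | ∃ᶠ j in atTop, c ∈ Bad fl ρ (A1 * q j) (A2 * q j) (𝒳 j) (𝒴 j) (𝒟 j) ∧ 1 / (L : ℝ) ≤ c ∧ c ≤ L} ⊆
      {c | ∃ᶠ j in atTop, ∃ z ∈ FC fl ρ (A1 * q j) (A2 * q j) (𝒳 j) (𝒴 j) (𝒟 j) L (N j), c ∈ cell (N j) z} := by
    intro c hc
    exact hc.mono fun j hj => cell_cover fl ρ _ _ (𝒳 j) (𝒴 j) (𝒟 j) L (N j) (hNpos j) hj.1 hj.2.1 hj.2.2
  refine (dimH_mono hmono).trans ?_
  refine Pool.Agent.N84.MD.core (fun j z => cell (N j) z) D hD0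
    (fun j => FC fl ρ (A1 * q j) (A2 * q j) (𝒳 j) (𝒴 j) (𝒟 j) L (N j)) (fun j => 1 / (N j : ℝ))
    (fun j => by positivity) (fun j z _ => cell_diam (N j) z (hNpos j)) ?_
  -- eventually the gap is small
  have hqt : Tendsto q atTop atTop := by
    have h1 : q = fun j => ((2 : ℝ) ^ (n + 2)) ^ j := by
      funext j
      simp only [hq]
      rw [← pow_mul, ← pow_mul, mul_comm]
    rw [h1]
    exact tendsto_pow_atTop_atTop_of_one_lt (one_lt_pow₀ (by norm_num) (by omega))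
  have hev : ∀ᶠ j in atTop, u0 + G j ≤ q j := by
    have h1 : Tendsto (fun x : ℝ => x ^ (1 - e₁)) atTop atTop := tendsto_rpow_atTop (by linarith)
    have h2 := (h1.comp hqt).eventually_ge_atTop (u0 + 2 * K * (A2 + 1))
    filter_upwards [h2] with j hj
    have hj' : u0 + 2 * K * (A2 + 1) ≤ q j ^ (1 - e₁) := hj
    have h3 : q j = q j ^ (1 - e₁) * q j ^ e₁ := by
      rw [← Real.rpow_add (by linarith [hq1 j])]
      simp
    have h4 : 1 ≤ q j ^ e₁ := Real.one_le_rpow (hq1 j) he10.le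
    have h5 : (u0 + 2 * K * (A2 + 1)) * q j ^ e₁ ≤ q j ^ (1 - e₁) * q j ^ e₁ :=
      mul_le_mul_of_nonneg_right hj' (by linarith)
    rw [← h3, add_mul] at h5
    have h6 : u0 ≤ u0 * q j ^ e₁ := le_mul_of_one_le_right (by linarith) h4
    linarith [hGup j]
  -- the measure at one scale
  obtain ⟨C1, hC1⟩ : ∃ C1 : ℝ, C1 = 36 * K * (A2 + 1) ^ 2 := ⟨_, rfl⟩
  obtain ⟨C2, hC2⟩ : ∃ C2 : ℝ, C2 = 4 * ρ * (L + 1) + 64 * ρ ^ 2 * (n + 3) := ⟨_, rfl⟩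
  have hC20 : 0 < C2 := by rw [hC2]; positivity
  have hC10 : 0 < C1 := by rw [hC1]; positivity
  obtain ⟨C3, hC3⟩ : ∃ C3 : ℝ, C3 = 15 * C2 / (2 * ρ ^ 3) * (C1 / (c₂ * c₃)) := ⟨_, rfl⟩
  have hC30 : 0 < C3 := by rw [hC3]; positivity
  set δ : ℝ := 1 - e₁ - e₂ - e₃ with hδ
  have hmain : ∀ᶠ j in atTop, ((FC fl ρ (A1 * q j) (A2 * q j) (𝒳 j) (𝒴 j) (𝒟 j) L (N j)).card : ℝ) ≤
      N j * (C3 * (((j : ℝ) + 1) * q j ^ (-δ))) := by
    filter_upwards [hev, eventually_ge_atTop j0] with j hj hjj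
    have hqj := hq1 j
    have hqj0 : 0 < q j := by linarith
    have hY := hcard₂ j hjj
    have hDj := hcard₃ j hjj
    rw [pow_two_rpow] at hY hDj
    have hYpos : 0 < c₂ * q j ^ (1 - e₂) := by positivity
    have hDpos : 0 < c₃ * q j ^ (1 - e₃) := by positivity
    have hYc : (0 : ℝ) < ((𝒴 j).card : ℝ) := lt_of_lt_of_le hYpos hY
    have hDc : (0 : ℝ) < ((𝒟 j).card : ℝ) := lt_of_lt_of_le hDpos hDj
    have hNY : (((2 ^ j) ^ (n + 2) : ℕ) : ℝ) = q j := by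
      simp only [hq]
      push_cast
      rfl
    have hone := one_scale fl L h (N j) ((2 ^ j) ^ (n + 2)) (G j) hL hh hqj (hNr j) (hN2L j) (𝒳 j) (𝒴 j) (𝒟 j) (hG1 j)
      (h𝒴 j) (h𝒟 j) hNY (by exact_mod_cast hYc) (by exact_mod_cast hDc) (h𝒳3 j) (h𝒳4 j) hj hρ
    refine hone.trans (mul_le_mul_of_nonneg_left ?_ (Nat.cast_nonneg _))
    have hlog : 4 * ρ * ((L : ℝ) + 1) + 64 * ρ ^ 2 * (1 + Real.log (((2 ^ j) ^ (n + 2) : ℕ) : ℝ)) ≤ C2 * ((j : ℝ) + 1) := by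
      have hj0' : (0 : ℝ) ≤ j := Nat.cast_nonneg j
      have h1 : Real.log (((2 ^ j) ^ (n + 2) : ℕ) : ℝ) ≤ ((n : ℝ) + 2) * j := by
        push_cast
        rw [← pow_mul, Real.log_pow]
        have h2 : Real.log 2 ≤ 1 := by
          have := Real.log_two_lt_d9
          linarith
        push_cast
        have h3 : ((j : ℝ) * (n + 2)) * Real.log 2 ≤ ((j : ℝ) * (n + 2)) * 1 :=
          mul_le_mul_of_nonneg_left h2 (by positivity)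
        linarith
      have h2 : 1 + Real.log (((2 ^ j) ^ (n + 2) : ℕ) : ℝ) ≤ ((n : ℝ) + 3) * (j + 1) := by
        have h3 : (0 : ℝ) ≤ (n : ℝ) := Nat.cast_nonneg n
        nlinarith
      have h3 : 64 * ρ ^ 2 * (1 + Real.log (((2 ^ j) ^ (n + 2) : ℕ) : ℝ)) ≤ 64 * ρ ^ 2 * (((n : ℝ) + 3) * (j + 1)) :=
        mul_le_mul_of_nonneg_left h2 (by positivity)
      have h4 : 4 * ρ * ((L : ℝ) + 1) ≤ 4 * ρ * (L + 1) * (j + 1) :=
        le_mul_of_one_le_right (by positivity) (by linarith)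
      rw [hC2]
      linarith
    have hxc : ((𝒳 j).card : ℝ) * (3 * (G j : ℝ)) ^ 2 ≤ C1 * (q j * q j ^ e₁) := by
      rw [hC1]
      refine xcard (U := U j) (hG1r j) hK (by linarith) hqj (Real.one_le_rpow hqj he10.le) rfl (h𝒳2 j) ?_ (hGup j)
      have h1 : q j ≤ U j := by
        simp only [hU]
        exact le_mul_of_one_le_left (by linarith) (by linarith)
      linarith
    have hrb := ratio_bound hqj hC10.le hc₂ hc₃ hxc hY hDj (by positivity)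
    calc _ ≤ 15 * (C2 * ((j : ℝ) + 1)) / (2 * ρ ^ 3) * (C1 / (c₂ * c₃) * q j ^ (-(1 - e₁ - e₂ - e₃))) := by
          refine mul_le_mul ?_ hrb (by positivity) (by positivity)
          refine div_le_div_of_nonneg_right ?_ (by positivity)
          exact mul_le_mul_of_nonneg_left hlog (by norm_num)
      _ = C3 * (((j : ℝ) + 1) * q j ^ (-δ)) := by
          rw [hC3, hδ]
          ring
  -- summability
  set σ : ℝ := 1 - D with hσ
  have hσδ : σ < δ := by simp only [hσ, hδ]; linarith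
  have hσ0 : 0 < σ := by simp only [hσ]; linarith
  set r : ℝ := ((2 : ℝ) ^ (n + 2)) ^ (σ - δ) with hr
  have h2k : (1 : ℝ) < 2 ^ (n + 2) := one_lt_pow₀ (by norm_num) (by omega)
  have hr0 : 0 < r := by simp only [hr]; positivity
  have hr1 : r < 1 := Real.rpow_lt_one_of_one_lt_of_neg h2k (by linarith)
  obtain ⟨C4, hC4⟩ : ∃ C4 : ℝ, C4 = (16 * L * h : ℝ) ^ σ * C3 := ⟨_, rfl⟩
  have hS : Summable fun j : ℕ => C4 * (((j : ℝ) + 1) * r ^ j) := by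
    refine Summable.mul_left C4 ?_
    have h1 := summable_pow_mul_geometric_of_norm_lt_one (R := ℝ) 1 (r := r)
      (by rw [Real.norm_of_nonneg hr0.le]; exact hr1)
    have h2 := (summable_nat_add_iff 1).2 h1
    have h3 := h2.mul_left (r⁻¹)
    refine h3.congr fun j => ?_
    push_cast
    rw [pow_succ r j, pow_one]
    field_simp
  refine Summable.of_norm_bounded_eventually_nat hS ?_
  filter_upwards [hmain] with j hj
  rw [Real.norm_of_nonneg (by positivity)]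
  have hNp : (0 : ℝ) < (N j : ℝ) := by exact_mod_cast hNpos j
  have hqj0 : 0 < q j := by linarith [hq1 j]
  have h1 : (1 / (N j : ℝ)) ^ D = (N j : ℝ) ^ (-D) := by
    rw [one_div, Real.inv_rpow hNp.le, Real.rpow_neg hNp.le]
  have h2 : (N j : ℝ) * (N j : ℝ) ^ (-D) = (N j : ℝ) ^ σ := by
    nth_rw 1 [← Real.rpow_one (N j : ℝ)]
    rw [← Real.rpow_add hNp, hσ]
    congr 1
  have h3 : (N j : ℝ) ^ σ = (16 * L * h : ℝ) ^ σ * q j ^ σ := by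
    rw [hNr, Real.mul_rpow (by positivity) hqj0.le]
  have h4 : q j ^ σ * q j ^ (-δ) = r ^ j := by
    rw [← Real.rpow_add hqj0, hr, ← Real.rpow_natCast, ← Real.rpow_mul (by positivity)]
    simp only [hq]
    rw [← Real.rpow_natCast, ← Real.rpow_natCast, ← Real.rpow_natCast, ← Real.rpow_mul (by norm_num),
      ← Real.rpow_mul (by norm_num), ← Real.rpow_mul (by norm_num)]
    congr 1
    ring
  calc _ ≤ (N j * (C3 * (((j : ℝ) + 1) * q j ^ (-δ)))) * (1 / (N j : ℝ)) ^ D :=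
        mul_le_mul_of_nonneg_right hj (by positivity)
    _ = ((N j : ℝ) * (N j : ℝ) ^ (-D)) * (C3 * (((j : ℝ) + 1) * q j ^ (-δ))) := by rw [h1]; ring
    _ = (16 * L * h : ℝ) ^ σ * C3 * (((j : ℝ) + 1) * (q j ^ σ * q j ^ (-δ))) := by rw [h2, h3]; ring
    _ = C4 * (((j : ℝ) + 1) * r ^ j) := by rw [h4, hC4]

end Pool.Agent.D0H17.MR
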