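import Pool.Agent.D0H17.MR.DimR
import Pool.Agent.D0H17.MW.Final

set_option autoImplicit false

/-! The final theorem for one generic ratio. -/

namespace Pool.Agent.D0H17.MR

open Finset MeasureTheory Filter Pool.Agent.D0H17.MW
open scoped ENNReal

/-- every large real number is close to a sum of `a` positive `k`-th powers plus `c` times a sum of `b` positive
`k`-th powers -/
def Cov2 (k a b : ℕ) (c : ℝ) : Prop :=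
  ∀ η : ℝ, 0 < η → ∃ τ₀ : ℝ, ∀ τ : ℝ, τ₀ ≤ τ → ∃ (x : Fin a → ℕ) (y : Fin b → ℕ),
    (∀ i, 1 ≤ x i) ∧ (∀ j, 1 ≤ y j) ∧ |∑ i, (x i : ℝ) ^ k + c * ∑ j, (y j : ℝ) ^ k - τ| < η

/-- three blocks -/
def CovB (fl : Bool) (k t₁ t₂ t₃ : ℕ) (c : ℝ) : Prop :=
  ∀ η : ℝ, 0 < η → ∃ τ₀ : ℝ, ∀ τ : ℝ, τ₀ ≤ τ → ∃ (x : Fin t₁ → ℕ) (y : Fin t₂ → ℕ) (z : Fin t₃ → ℕ),
    (∀ i, 1 ≤ x i) ∧ (∀ j, 1 ≤ y j) ∧ (∀ j, 1 ≤ z j) ∧
      |∑ i, (x i : ℝ) ^ k + c * ∑ j, (y j : ℝ) ^ k + sc fl c * ∑ j, (z j : ℝ) ^ k - τ| < η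

lemma append_sum {a b : ℕ} (k : ℕ) (x : Fin a → ℕ) (y : Fin b → ℕ) :
    ∑ l, ((Fin.append x y l : ℕ) : ℝ) ^ k = ∑ i, (x i : ℝ) ^ k + ∑ j, (y j : ℝ) ^ k := by
  rw [Fin.sum_univ_add]
  simp only [Fin.append_left, Fin.append_right]

lemma append_pos {a b : ℕ} {x : Fin a → ℕ} {y : Fin b → ℕ} (hx : ∀ i, 1 ≤ x i) (hy : ∀ i, 1 ≤ y i) :
    ∀ l, 1 ≤ (Fin.append x y l : ℕ) := by
  intro l
  refine Fin.addCases (fun a => ?_) (fun a => ?_) l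
  · rw [Fin.append_left]; exact hx a
  · rw [Fin.append_right]; exact hy a

lemma CovB.exact {k t₁ t₂ t₃ : ℕ} {c : ℝ} (h : CovB false k t₁ t₂ t₃ c) : Cov2 k (t₁ + t₃) t₂ c := by
  intro η hη
  obtain ⟨τ₀, h⟩ := h η hη
  refine ⟨τ₀, fun τ hτ => ?_⟩
  obtain ⟨x, y, z, hx, hy, hz, h1⟩ := h τ hτ
  refine ⟨Fin.append x z, y, append_pos hx hz, hy, ?_⟩
  rw [append_sum]
  have e : sc false c = 1 := by simp [sc]
  rw [e, one_mul] at h1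
  refine lt_of_le_of_lt (le_of_eq ?_) h1
  congr 1
  ring

lemma CovB.dil {k t₁ t₂ t₃ : ℕ} {c : ℝ} (h : CovB true k t₁ t₂ t₃ c) : Cov2 k t₁ (t₂ + t₃) c := by
  intro η hη
  obtain ⟨τ₀, h⟩ := h η hη
  refine ⟨τ₀, fun τ hτ => ?_⟩
  obtain ⟨x, y, z, hx, hy, hz, h1⟩ := h τ hτ
  refine ⟨x, Fin.append y z, hx, append_pos hy hz, ?_⟩
  rw [append_sum]
  have e : sc true c = c := by simp [sc]
  rw [e] at h1
  refine lt_of_le_of_lt (le_of_eq ?_) h1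
  congr 1
  ring

theorem finR (fl : Bool) (n t₁ t₂ t₃ : ℕ) :
    dimH {c : ℝ | 0 < c ∧ ¬ CovB fl (n + 2) t₁ t₂ t₃ c} ≤ ENNReal.ofReal (dl n ^ t₁ + dl n ^ t₂ + dl n ^ t₃) := by
  obtain ⟨hd0, hd1⟩ := dl_mem n
  set s : ℝ := dl n ^ t₁ + dl n ^ t₂ + dl n ^ t₃ with hs
  have hs0 : 0 ≤ s := by
    simp only [hs]
    positivity
  rcases le_or_gt 1 s with h1s | h1s
  · refine (dimH_mono (Set.subset_univ _)).trans ?_
    rw [Real.dimH_univ]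
    rw [show (1 : ℝ≥0∞) = ENNReal.ofReal 1 by simp]
    exact ENNReal.ofReal_le_ofReal h1s
  by_contra hcon
  rw [not_le] at hcon
  obtain ⟨r, hr1, hr2⟩ := ENNReal.lt_iff_exists_nnreal_btwn.1 hcon
  have hr : s < r := by
    have h1 := hr1
    rw [← ENNReal.ofReal_coe_nnreal, ENNReal.ofReal_lt_ofReal_iff_of_nonneg hs0] at h1
    exact h1
  set D : ℝ := min (r : ℝ) ((s + 1) / 2) with hD
  have hD1 : D < 1 := lt_of_le_of_lt (min_le_right _ _) (by linarith)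
  have hDs : s < D := lt_min hr (by linarith)
  have hDr : D ≤ r := min_le_left _ _
  obtain ⟨𝒴, c₂, j₂, hc₂, h𝒴, hcard₂⟩ := sets n t₂
  obtain ⟨𝒟, c₃, j₃, hc₃, h𝒟, hcard₃⟩ := sets n t₃
  choose 𝒳 h𝒳 hdim using fun L H : ℕ => dimR n t₁ t₂ t₃ (L + 1) (H + 1) (by omega) (by omega) fl D hDs hD1 𝒴 𝒟
    (fun j b hb => (h𝒴 j b hb).1) (fun j b hb => (h𝒟 j b hb).1) c₂ c₃ hc₂ hc₃ (max j₂ j₃)
    (fun j hj => hcard₂ j ((le_max_left _ _).trans hj)) (fun j hj => hcard₃ j ((le_max_right _ _).trans hj))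
  set E : ℕ → ℕ → Set ℝ := fun L H => {c : ℝ | ∃ᶠ j in atTop, c ∈ Bad fl (1 / (8 * ((L + 1 : ℕ) : ℝ) * ((H + 1 : ℕ) : ℝ)))
        ((2 * ((L + 1 : ℕ) : ℝ) + 6) * ((2 : ℝ) ^ j) ^ (n + 2))
        (2 ^ (n + 2) * (2 * ((L + 1 : ℕ) : ℝ) + 6) * ((2 : ℝ) ^ j) ^ (n + 2)) (𝒳 L H j) (𝒴 j) (𝒟 j) ∧
        1 / ((L + 1 : ℕ) : ℝ) ≤ c ∧ c ≤ ((L + 1 : ℕ) : ℝ)} with hE
  have hsub : {c : ℝ | 0 < c ∧ ¬ CovB fl (n + 2) t₁ t₂ t₃ c} ⊆ ⋃ L : ℕ, ⋃ H : ℕ, E L H := by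
    rintro c ⟨hc0, hc⟩
    by_contra hcon
    apply hc
    simp only [Set.mem_iUnion, not_exists] at hcon
    obtain ⟨L, hL⟩ := exists_nat_ge (max c (1 / c))
    have hL1 : c ≤ ((L + 1 : ℕ) : ℝ) := by
      have := (le_max_left c (1 / c)).trans hL
      push_cast
      linarith
    have hL2 : 1 / ((L + 1 : ℕ) : ℝ) ≤ c := by
      have h1 := (le_max_right c (1 / c)).trans hL
      rw [div_le_iff₀ (by positivity)]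
      rw [div_le_iff₀ hc0] at h1
      push_cast
      nlinarith
    intro η hη
    obtain ⟨H, hH⟩ := exists_nat_one_div_lt hη
    have hev := hcon L H
    simp only [hE, Set.mem_ofPred_eq, not_frequently] at hev
    obtain ⟨J, hJ⟩ := eventually_atTop.1 hev
    set A1 : ℝ := 2 * ((L + 1 : ℕ) : ℝ) + 6 with hA1
    have hA10 : 0 < A1 := by simp only [hA1]; positivity
    have hy1 : (1 : ℝ) < 2 ^ (n + 2) := one_lt_pow₀ (by norm_num) (by omega)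
    refine ⟨A1 * ((2 : ℝ) ^ J) ^ (n + 2), fun τ hτ => ?_⟩
    have hτx : ((2 : ℝ) ^ (n + 2)) ^ J ≤ τ / A1 := by
      rw [le_div_iff₀ hA10]
      refine le_trans (le_of_eq ?_) hτ
      rw [← pow_mul, ← pow_mul, mul_comm J]
      ring
    have hx1 : 1 ≤ τ / A1 := le_trans (one_le_pow₀ hy1.le) hτx
    obtain ⟨j, hj1, hj2⟩ := exists_nat_pow_near hx1 hy1
    have hJj : J ≤ j := by
      by_contra hlt
      have h3 : ((2 : ℝ) ^ (n + 2)) ^ (j + 1) ≤ ((2 : ℝ) ^ (n + 2)) ^ J := pow_le_pow_right₀ hy1.le (by omega)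
      linarith
    have hτ1 : A1 * ((2 : ℝ) ^ j) ^ (n + 2) ≤ τ := by
      rw [le_div_iff₀ hA10] at hj1
      refine le_trans (le_of_eq ?_) hj1
      rw [← pow_mul, ← pow_mul, mul_comm j]
      ring
    have hτ2 : τ ≤ 2 ^ (n + 2) * A1 * ((2 : ℝ) ^ j) ^ (n + 2) := by
      rw [div_lt_iff₀ hA10] at hj2
      refine le_trans hj2.le (le_of_eq ?_)
      rw [pow_succ, ← pow_mul, ← pow_mul, mul_comm (n + 2) j]
      ring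
    have hnot := hJ j hJj
    have hex : ∃ x ∈ 𝒳 L H j, ∃ y ∈ 𝒴 j, ∃ d ∈ 𝒟 j,
        |(x : ℝ) + c * y + sc fl c * d - τ| < 3 * (1 / (8 * ((L + 1 : ℕ) : ℝ) * ((H + 1 : ℕ) : ℝ))) := by
      by_contra hno
      apply hnot
      refine ⟨⟨τ, hτ1, hτ2, ?_⟩, hL2, hL1⟩
      intro x hx y hy d hd
      by_contra hc
      exact hno ⟨x, hx, y, hy, d, hd, not_le.1 hc⟩
    obtain ⟨x, hx, y, hy, d, hd, hlt⟩ := hex
    obtain ⟨u, hu, rfl⟩ := h𝒳 L H j x hx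
    obtain ⟨v, hv, rfl⟩ := (h𝒴 j y hy).2
    obtain ⟨w, hw, rfl⟩ := (h𝒟 j d hd).2
    refine ⟨u, v, w, hu, hv, hw, ?_⟩
    push_cast at hlt
    refine lt_of_lt_of_le hlt ?_
    have h1 : 3 * (1 / (8 * ((L : ℝ) + 1) * ((H : ℝ) + 1))) ≤ 1 / ((H : ℝ) + 1) := by
      rw [mul_one_div, div_le_div_iff₀ (by positivity) (by positivity)]
      have h2 : (0 : ℝ) ≤ L := Nat.cast_nonneg L
      have h3 : (0 : ℝ) ≤ H := Nat.cast_nonneg H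
      nlinarith [mul_nonneg h2 h3]
    linarith
  have hle : dimH {c : ℝ | 0 < c ∧ ¬ CovB fl (n + 2) t₁ t₂ t₃ c} ≤ ENNReal.ofReal D := by
    refine (dimH_mono hsub).trans ?_
    rw [dimH_iUnion]
    refine iSup_le fun L => ?_
    rw [dimH_iUnion]
    exact iSup_le fun H => hdim L H
  have hle2 : ENNReal.ofReal D ≤ r := by
    rw [← ENNReal.ofReal_coe_nnreal]
    exact ENNReal.ofReal_le_ofReal hDr
  exact absurd hr2 (not_lt.2 (hle.trans hle2))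

lemma dl_cast (n : ℕ) : (1 - 1 / (((n + 2 : ℕ)) : ℝ)) = dl n := by
  unfold dl
  push_cast
  rfl

/-- the general theorem, the last block exact -/
theorem generalE (k t₁ t₂ t₃ : ℕ) (hk : 2 ≤ k) :
    dimH {c : ℝ | 0 < c ∧ ¬ Cov2 k (t₁ + t₃) t₂ c} ≤
      ENNReal.ofReal ((1 - 1 / (k : ℝ)) ^ t₁ + (1 - 1 / (k : ℝ)) ^ t₂ + (1 - 1 / (k : ℝ)) ^ t₃) := by
  obtain ⟨n, rfl⟩ : ∃ n, k = n + 2 := ⟨k - 2, by omega⟩
  rw [dl_cast]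
  refine (dimH_mono ?_).trans (finR false n t₁ t₂ t₃)
  rintro c ⟨h1, h2⟩
  exact ⟨h1, fun h => h2 h.exact⟩

/-- the general theorem, the last block dilated -/
theorem generalD (k t₁ t₂ t₃ : ℕ) (hk : 2 ≤ k) :
    dimH {c : ℝ | 0 < c ∧ ¬ Cov2 k t₁ (t₂ + t₃) c} ≤
      ENNReal.ofReal ((1 - 1 / (k : ℝ)) ^ t₁ + (1 - 1 / (k : ℝ)) ^ t₂ + (1 - 1 / (k : ℝ)) ^ t₃) := by
  obtain ⟨n, rfl⟩ : ∃ n, k = n + 2 := ⟨k - 2, by omega⟩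
  rw [dl_cast]
  refine (dimH_mono ?_).trans (finR true n t₁ t₂ t₃)
  rintro c ⟨h1, h2⟩
  exact ⟨h1, fun h => h2 h.dil⟩

/-- from real targets to integers -/
lemma Cov2.floor {k a b : ℕ} {c : ℝ} (h : Cov2 k a b c) : ∃ n₀ : ℕ, ∀ n : ℕ, n₀ ≤ n →
    ∃ (x : Fin a → ℕ) (y : Fin b → ℕ), (∀ i, 1 ≤ x i) ∧ (∀ j, 1 ≤ y j) ∧
      (n : ℤ) = ∑ i, (x i : ℤ) ^ k + ⌊c * ∑ j, (y j : ℝ) ^ k⌋ := by
  obtain ⟨τ₀, h⟩ := h (1 / 2) (by norm_num)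
  refine ⟨⌈τ₀⌉₊, fun n hn => ?_⟩
  have h1 : τ₀ ≤ (n : ℝ) + 1 / 2 := by
    have h2 : τ₀ ≤ (⌈τ₀⌉₊ : ℝ) := Nat.le_ceil _
    have h3 : ((⌈τ₀⌉₊ : ℕ) : ℝ) ≤ n := by exact_mod_cast hn
    linarith
  obtain ⟨x, y, hx, hy, hxy⟩ := h _ h1
  refine ⟨x, y, hx, hy, ?_⟩
  rw [abs_lt] at hxy
  have h2 : ⌊c * ∑ j, (y j : ℝ) ^ k⌋ = (n : ℤ) - ∑ i, (x i : ℤ) ^ k := by
    rw [Int.floor_eq_iff]
    push_cast
    constructor <;> linarith [hxy.1, hxy.2]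
  rw [h2]
  ring

end Pool.Agent.D0H17.MR
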