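import Pool.Agent.D0H17.MR.Conv

set_option autoImplicit false

/-! The second moment. -/

namespace Pool.Agent.D0H17.MR

open MeasureTheory Finset

/-- fine count minus the normalised coarse count -/
noncomputable def RR (ρ g : ℝ) (X Y : Finset ℕ) (c τ : ℝ) : ℝ :=
  ∑ p ∈ X ×ˢ Y, psi ρ g ((p.1 : ℝ) + c * p.2 - τ)

/-- the second moment over the targets -/
noncomputable def VV (ρ g : ℝ) (X Y : Finset ℕ) (c : ℝ) : ℝ :=
  ∑ p ∈ X ×ˢ Y, ∑ q ∈ X ×ˢ Y, AC ρ g (((p.1 : ℝ) - q.1) + c * ((p.2 : ℝ) - q.2))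

lemma integrable_RR_sq {ρ g : ℝ} (hρ : 0 < ρ) (hρg : ρ ≤ g) (X Y : Finset ℕ) (c : ℝ) :
    Integrable fun τ => RR ρ g X Y c τ ^ 2 := by
  have h1 : (fun τ => RR ρ g X Y c τ ^ 2) = fun τ => ∑ p ∈ X ×ˢ Y, ∑ q ∈ X ×ˢ Y,
      psi ρ g ((p.1 : ℝ) + c * p.2 - τ) * psi ρ g ((q.1 : ℝ) + c * q.2 - τ) := by
    funext τ
    unfold RR
    rw [sq, sum_mul_sum]
  rw [h1]
  exact integrable_finsetSum _ fun p _ => integrable_finsetSum _ fun q _ => integrable_pair ρ g _ _ hρ hρg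

lemma integral_RR_sq {ρ g : ℝ} (hρ : 0 < ρ) (hρg : ρ ≤ g) (X Y : Finset ℕ) (c : ℝ) :
    ∫ τ, RR ρ g X Y c τ ^ 2 = VV ρ g X Y c := by
  have h1 : (fun τ => RR ρ g X Y c τ ^ 2) = fun τ => ∑ p ∈ X ×ˢ Y, ∑ q ∈ X ×ˢ Y,
      psi ρ g ((p.1 : ℝ) + c * p.2 - τ) * psi ρ g ((q.1 : ℝ) + c * q.2 - τ) := by
    funext τ
    unfold RR
    rw [sq, sum_mul_sum]
  rw [h1, integral_finsetSum _ fun p _ => integrable_finsetSum _ fun q _ => integrable_pair ρ g _ _ hρ hρg]
  unfold VV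
  refine sum_congr rfl fun p _ => ?_
  rw [integral_finsetSum _ fun q _ => integrable_pair ρ g _ _ hρ hρg]
  refine sum_congr rfl fun q _ => ?_
  rw [AC_pair]
  congr 1
  ring

lemma VV_nonneg {ρ g : ℝ} (hρ : 0 < ρ) (hρg : ρ ≤ g) (X Y : Finset ℕ) (c : ℝ) : 0 ≤ VV ρ g X Y c := by
  rw [← integral_RR_sq hρ hρg]
  exact integral_nonneg fun _ => sq_nonneg _

lemma intervalIntegrable_term (ρ g u w : ℝ) (p0 p1 : ℝ) :
    IntervalIntegrable (fun c => AC ρ g (u + c * w)) volume p0 p1 := by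
  by_cases hw : w = 0
  · simp only [hw, mul_zero, add_zero]
    exact intervalIntegrable_const
  · have h1 : Integrable fun c => AC ρ g (u + c * w) := by
      have h2 := ((integrable_AC ρ g).comp_add_left u).comp_mul_right' hw
      exact h2
    exact h1.intervalIntegrable

lemma intervalIntegrable_VV (ρ g : ℝ) (X Y : Finset ℕ) (p0 p1 : ℝ) :
    IntervalIntegrable (VV ρ g X Y) volume p0 p1 := by
  have h1 : VV ρ g X Y = fun c => ∑ p ∈ X ×ˢ Y, ∑ q ∈ X ×ˢ Y, AC ρ g (((p.1 : ℝ) - q.1) + c * ((p.2 : ℝ) - q.2)) := rfl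
  rw [h1]
  have h2 : (fun c => ∑ p ∈ X ×ˢ Y, ∑ q ∈ X ×ˢ Y, AC ρ g (((p.1 : ℝ) - q.1) + c * ((p.2 : ℝ) - q.2))) =
      ∑ p ∈ X ×ˢ Y, ∑ q ∈ X ×ˢ Y, fun c => AC ρ g (((p.1 : ℝ) - q.1) + c * ((p.2 : ℝ) - q.2)) := by
    funext c
    simp only [Finset.sum_apply]
  rw [h2]
  exact IntervalIntegrable.sum _ fun p _ => IntervalIntegrable.sum _ fun q _ => intervalIntegrable_term _ _ _ _ _ _

/-- the harmonic sum -/
lemma harmonic_bound (N : ℕ) (Y : Finset ℕ) (hY : ∀ y ∈ Y, y ≤ N) (y : ℕ) (hy : y ≤ N) :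
    ∑ y' ∈ Y.filter (fun y' => y' ≠ y), 1 / |(y : ℝ) - y'| ≤ 2 * (1 + Real.log N) := by
  have h1 : ∑ y' ∈ Y.filter (fun y' => y' ≠ y), 1 / |(y : ℝ) - y'| ≤
      ∑ y' ∈ (range (N + 1)).filter (fun y' => y' ≠ y), 1 / |(y : ℝ) - y'| := by
    refine sum_le_sum_of_subset_of_nonneg ?_ fun _ _ _ => by positivity
    intro y' hy'
    rw [mem_filter] at hy' ⊢
    exact ⟨mem_range.2 (by have := hY y' hy'.1; omega), hy'.2⟩
  have h2 : (range (N + 1)).filter (fun y' => y' ≠ y) = range y ∪ (Ico (y + 1) (N + 1)) := by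
    ext z
    simp only [mem_filter, mem_range, mem_union, mem_Ico]
    omega
  have h3 : ∑ y' ∈ range y, 1 / |(y : ℝ) - y'| ≤ 1 + Real.log N := by
    have h4 : ∑ y' ∈ range y, 1 / |(y : ℝ) - y'| = ∑ j ∈ range y, (1 : ℝ) / (j + 1) := by
      rw [← sum_range_reflect]
      refine sum_congr rfl fun j hj => ?_
      rw [mem_range] at hj
      have h5 : ((y - 1 - j : ℕ) : ℝ) = (y : ℝ) - 1 - j := by
        rw [Nat.cast_sub (by omega), Nat.cast_sub (by omega)]
        push_cast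
        ring
      rw [h5]
      have h6 : (y : ℝ) - (y - 1 - j) = j + 1 := by ring
      rw [h6, abs_of_pos (by positivity)]
    rw [h4]
    have h5 : ∑ j ∈ range y, (1 : ℝ) / (j + 1) ≤ ∑ j ∈ range N, (1 : ℝ) / (j + 1) :=
      sum_le_sum_of_subset_of_nonneg (range_subset_range.2 hy) fun _ _ _ => by positivity
    refine h5.trans ?_
    have h6 := harmonic_le_one_add_log N
    have h7 : ((harmonic N : ℚ) : ℝ) = ∑ j ∈ range N, (1 : ℝ) / (j + 1) := by
      unfold harmonic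
      push_cast
      refine sum_congr rfl fun j _ => ?_
      rw [one_div]
    rw [← h7]
    exact h6
  have h4 : ∑ y' ∈ Ico (y + 1) (N + 1), 1 / |(y : ℝ) - y'| ≤ 1 + Real.log N := by
    have h4 : ∑ y' ∈ Ico (y + 1) (N + 1), 1 / |(y : ℝ) - y'| = ∑ j ∈ range (N - y), (1 : ℝ) / (j + 1) := by
      rw [sum_Ico_eq_sum_range]
      have : N + 1 - (y + 1) = N - y := by omega
      rw [this]
      refine sum_congr rfl fun j _ => ?_
      push_cast
      have h6 : (y : ℝ) - (y + 1 + j) = -(j + 1) := by ring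
      rw [h6, abs_neg, abs_of_pos (by positivity)]
    rw [h4]
    have h5 : ∑ j ∈ range (N - y), (1 : ℝ) / (j + 1) ≤ ∑ j ∈ range N, (1 : ℝ) / (j + 1) :=
      sum_le_sum_of_subset_of_nonneg (range_subset_range.2 (by omega)) fun _ _ _ => by positivity
    refine h5.trans ?_
    have h6 := harmonic_le_one_add_log N
    have h7 : ((harmonic N : ℚ) : ℝ) = ∑ j ∈ range N, (1 : ℝ) / (j + 1) := by
      unfold harmonic
      push_cast
      refine sum_congr rfl fun j _ => ?_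
      rw [one_div]
    rw [← h7]
    exact h6
  refine h1.trans ?_
  rw [h2, sum_union]
  · linarith
  · rw [Finset.disjoint_left]
    intro z hz1 hz2
    rw [mem_range] at hz1
    rw [mem_Ico] at hz2
    omega

/-- the average of the second moment over the ratio -/
theorem second_moment {ρ g : ℝ} (hρ : 0 < ρ) (hρg : ρ ≤ g) {p0 p1 : ℝ} (hp : p0 ≤ p1) (X Y : Finset ℕ) (C0 : ℝ)
    (hX : ∀ v : ℝ, ((X.filter fun x : ℕ => |v - (x : ℝ)| < 2 * g).card : ℝ) ≤ C0) (N : ℕ) (hY : ∀ y ∈ Y, y ≤ N) :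
    ∫ c in p0..p1, VV ρ g X Y c ≤
      (X.card : ℝ) * Y.card * C0 * (4 * ρ * (p1 - p0) + 64 * ρ ^ 2 * (1 + Real.log N)) := by
  classical
  have hC0 : 0 ≤ C0 := le_trans (Nat.cast_nonneg _) (hX 0)
  -- one term
  have hterm : ∀ x y x' y' : ℕ, ∫ c in p0..p1, AC ρ g (((x : ℝ) - x') + c * ((y : ℝ) - y')) ≤
      if y' = y then (if |(x : ℝ) - x'| < 2 * g then 4 * ρ * (p1 - p0) else 0) else
        16 * ρ ^ 2 / |(y : ℝ) - y'| * ((if |((x : ℝ) + p0 * ((y : ℝ) - y')) - x'| < 2 * g then 1 else 0) +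
          (if |((x : ℝ) + p1 * ((y : ℝ) - y')) - x'| < 2 * g then 1 else 0)) := by
    intro x y x' y'
    split_ifs with h1 h2
    · rw [h1]
      simp only [sub_self, mul_zero, add_zero]
      rw [intervalIntegral.integral_const, smul_eq_mul]
      have h3 := (abs_le.1 (abs_AC_le hρ hρg ((x : ℝ) - x'))).2
      nlinarith
    · rw [h1]
      simp only [sub_self, mul_zero, add_zero]
      rw [AC_zero hρg (not_lt.1 h2)]
      simp
    all_goals
      have hw : (y : ℝ) - y' ≠ 0 := by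
        intro h
        apply h1
        have : (y : ℝ) = y' := by linarith
        exact_mod_cast this.symm
      obtain ⟨h4, h5⟩ := average_ne hρ hρg hp ((x : ℝ) - x') ((y : ℝ) - y') hw
      have h6 := (abs_le.1 h4).2
      have h7 : 0 ≤ 16 * ρ ^ 2 / |(y : ℝ) - y'| := by positivity
    · linarith
    · linarith
    · linarith
    · rename_i h2 h3
      rw [not_lt] at h2 h3
      have e1 : (x : ℝ) - x' + p0 * (y - y') = x + p0 * (y - y') - x' := by ring
      have e2 : (x : ℝ) - x' + p1 * (y - y') = x + p1 * (y - y') - x' := by ring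
      rw [h5 (by rw [e1]; exact h2) (by rw [e2]; exact h3)]
      simp
  -- swap
  have h1 : ∫ c in p0..p1, VV ρ g X Y c = ∑ p ∈ X ×ˢ Y, ∑ q ∈ X ×ˢ Y,
      ∫ c in p0..p1, AC ρ g (((p.1 : ℝ) - q.1) + c * ((p.2 : ℝ) - q.2)) := by
    unfold VV
    rw [intervalIntegral.integral_finsetSum fun p _ => ?_]
    · refine sum_congr rfl fun p _ => ?_
      rw [intervalIntegral.integral_finsetSum fun q _ => intervalIntegrable_term _ _ _ _ _ _]
    · have h2 : (fun c => ∑ q ∈ X ×ˢ Y, AC ρ g (((p.1 : ℝ) - q.1) + c * ((p.2 : ℝ) - q.2))) =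
          ∑ q ∈ X ×ˢ Y, fun c => AC ρ g (((p.1 : ℝ) - q.1) + c * ((p.2 : ℝ) - q.2)) := by
        funext c
        simp only [Finset.sum_apply]
      rw [h2]
      exact IntervalIntegrable.sum _ fun q _ => intervalIntegrable_term _ _ _ _ _ _
  rw [h1, sum_product]
  have hcount : ∀ v : ℝ, ∑ x' ∈ X, (if |v - (x' : ℝ)| < 2 * g then (1 : ℝ) else 0) ≤ C0 := by
    intro v
    rw [← sum_filter, sum_const, nsmul_eq_mul, mul_one]
    exact hX v
  have hinner : ∀ x ∈ X, ∀ y ∈ Y, ∑ q ∈ X ×ˢ Y,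
      ∫ c in p0..p1, AC ρ g (((x : ℝ) - q.1) + c * ((y : ℝ) - q.2)) ≤
      C0 * (4 * ρ * (p1 - p0) + 64 * ρ ^ 2 * (1 + Real.log N)) := by
    intro x _ y hy
    rw [sum_product_right]
    have h2 : ∀ y' ∈ Y, ∑ x' ∈ X, ∫ c in p0..p1, AC ρ g (((x : ℝ) - x') + c * ((y : ℝ) - y')) ≤
        if y' = y then 4 * ρ * (p1 - p0) * C0 else 32 * ρ ^ 2 * C0 * (1 / |(y : ℝ) - y'|) := by
      intro y' _
      refine (sum_le_sum fun x' _ => hterm x y x' y').trans ?_
      split_ifs with h3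
      · have h4 : ∑ x' ∈ X, (if |(x : ℝ) - x'| < 2 * g then 4 * ρ * (p1 - p0) else 0) =
            4 * ρ * (p1 - p0) * ∑ x' ∈ X, (if |(x : ℝ) - x'| < 2 * g then (1 : ℝ) else 0) := by
          rw [mul_sum]
          refine sum_congr rfl fun x' _ => ?_
          split_ifs <;> simp
        rw [h4]
        exact mul_le_mul_of_nonneg_left (hcount x) (mul_nonneg (by positivity) (by linarith))
      · rw [← mul_sum, sum_add_distrib]
        have h4 : 0 ≤ 16 * ρ ^ 2 / |(y : ℝ) - y'| := by positivity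
        have h5 := hcount ((x : ℝ) + p0 * ((y : ℝ) - y'))
        have h6 := hcount ((x : ℝ) + p1 * ((y : ℝ) - y'))
        refine (mul_le_mul_of_nonneg_left (add_le_add h5 h6) h4).trans (le_of_eq ?_)
        ring
    refine (sum_le_sum h2).trans ?_
    rw [sum_ite]
    have h3 : ∑ y' ∈ Y.filter (fun y' => y' = y), 4 * ρ * (p1 - p0) * C0 ≤ 4 * ρ * (p1 - p0) * C0 := by
      rw [sum_const, nsmul_eq_mul]
      have h4 : (Y.filter (fun y' => y' = y)).card ≤ 1 := by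
        rw [card_le_one]
        intro a ha b hb
        rw [mem_filter] at ha hb
        rw [ha.2, hb.2]
      have h5 : ((Y.filter (fun y' => y' = y)).card : ℝ) ≤ 1 := by exact_mod_cast h4
      have h6 : 0 ≤ 4 * ρ * (p1 - p0) * C0 := mul_nonneg (mul_nonneg (by positivity) (by linarith)) hC0
      exact mul_le_of_le_one_left h6 h5
    have h4 : ∑ y' ∈ Y.filter (fun y' => ¬ y' = y), 32 * ρ ^ 2 * C0 * (1 / |(y : ℝ) - y'|) ≤
        32 * ρ ^ 2 * C0 * (2 * (1 + Real.log N)) := by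
      rw [← mul_sum]
      exact mul_le_mul_of_nonneg_left (harmonic_bound N Y hY y (hY y hy)) (by positivity)
    refine (add_le_add h3 h4).trans (le_of_eq ?_)
    ring
  refine (sum_le_sum fun x hx => sum_le_sum fun y hy => hinner x hx y hy).trans (le_of_eq ?_)
  simp only [sum_const, nsmul_eq_mul]
  ring

end Pool.Agent.D0H17.MR
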