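import Pool.Agent.D0H17.MR.FinalR

set_option autoImplicit false

/-! The number of the summands. -/

namespace Pool.Agent.D0H17.MR

open Finset MeasureTheory Filter Pool.Agent.D0H17.MW
open scoped ENNReal

lemma dpow_le {k : ℕ} (hk : 2 ≤ k) (t : ℕ) : (1 - 1 / (k : ℝ)) ^ t ≤ Real.exp (-(t / k)) := by
  have hk0 : (2 : ℝ) ≤ k := by exact_mod_cast hk
  have h2 : 1 - 1 / (k : ℝ) ≤ Real.exp (-(1 / k)) := by
    have := Real.add_one_le_exp (-(1 / (k : ℝ)))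
    linarith
  have h3 : 0 ≤ 1 - 1 / (k : ℝ) := by
    have : 1 / (k : ℝ) ≤ 1 := by
      rw [div_le_one (by linarith)]
      linarith
    linarith
  refine (pow_le_pow_left₀ h3 h2 _).trans (le_of_eq ?_)
  rw [← Real.exp_nat_mul]
  congr 1
  ring

lemma exp_half_lo {x : ℝ} (hx : x ≤ 2) : 0.36 ≤ Real.exp (-(x / 2)) := by
  have h1 : Real.exp 1 < 2.7182818286 := Real.exp_one_lt_d9
  have h2 : Real.exp (-1) ≤ Real.exp (-(x / 2)) := Real.exp_le_exp.2 (by linarith)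
  have h3 : Real.exp (-1) * Real.exp 1 = 1 := by rw [← Real.exp_add]; simp
  have h4 : 0 < Real.exp (-1 : ℝ) := Real.exp_pos _
  nlinarith

lemma exp_half_hi {x : ℝ} (hx : 1 / 2 ≤ x) : Real.exp (-(x / 2)) ≤ 0.78 := by
  have h1 : Real.exp 1 > 2.7182818283 := Real.exp_one_gt_d9
  have h2 : Real.exp (-(x / 2)) ≤ Real.exp (-(1 / 4 : ℝ)) := Real.exp_le_exp.2 (by linarith)
  refine h2.trans ?_
  by_contra hcon
  rw [not_le] at hcon
  have h3 : Real.exp (-(1 / 4 : ℝ)) ^ 4 = Real.exp (-1) := by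
    rw [← Real.exp_nat_mul]
    congr 1
    norm_num
  have h4 : (0.78 : ℝ) ^ 4 ≤ Real.exp (-(1 / 4 : ℝ)) ^ 4 := pow_le_pow_left₀ (by norm_num) hcon.le 4
  rw [h3] at h4
  have h5 : Real.exp (-1) * Real.exp 1 = 1 := by rw [← Real.exp_add]; simp
  have h6 : 0 < Real.exp (-1 : ℝ) := Real.exp_pos _
  nlinarith

lemma exp_m2 : Real.exp (-2) < 0.13534 := by
  have h1 : Real.exp 1 > 2.7182818283 := Real.exp_one_gt_d9
  have h2 : Real.exp (-2) * (Real.exp 1 * Real.exp 1) = 1 := by rw [← Real.exp_add, ← Real.exp_add]; norm_num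
  have h4 : 0 < Real.exp (-2 : ℝ) := Real.exp_pos _
  have h5 : (7.389056 : ℝ) < Real.exp 1 * Real.exp 1 := by nlinarith
  nlinarith

lemma num_core {k a b m : ℕ} (hk : 2 ≤ k) (hab : a + b = 4 * k) (hb1 : k ≤ 2 * b) (hb2 : b ≤ 2 * k)
    (hm : m = a / 2) :
    (1 - 1 / (k : ℝ)) ^ m + (1 - 1 / (k : ℝ)) ^ (a - m) + (1 - 1 / (k : ℝ)) ^ b ≤ 0.97 := by
  have hk0 : (2 : ℝ) ≤ k := by exact_mod_cast hk
  have hkp : (0 : ℝ) < k := by linarith
  set x : ℝ := (b : ℝ) / k with hx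
  have hx1 : 1 / 2 ≤ x := by
    rw [hx, le_div_iff₀ hkp]
    have : (k : ℝ) ≤ 2 * b := by exact_mod_cast hb1
    linarith
  have hx2 : x ≤ 2 := by
    rw [hx, div_le_iff₀ hkp]
    exact_mod_cast hb2
  set u : ℝ := Real.exp (-(x / 2)) with hu
  have hu0 : 0 < u := Real.exp_pos _
  have hu1 : 0.36 ≤ u := exp_half_lo hx2
  have hu2 : u ≤ 0.78 := exp_half_hi hx1
  have hb : (1 - 1 / (k : ℝ)) ^ b ≤ u ^ 2 := by
    refine (dpow_le hk b).trans (le_of_eq ?_)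
    rw [hu, ← Real.exp_nat_mul]
    congr 1
    push_cast
    rw [hx]
    ring
  set δ : ℝ := ((a : ℝ) - 2 * m) / (2 * k) with hδ
  have hma : 2 * m ≤ a := by omega
  have hma' : a ≤ 2 * m + 1 := by omega
  have hδ0 : 0 ≤ δ := by
    have : (2 * m : ℝ) ≤ a := by exact_mod_cast hma
    rw [hδ]
    exact div_nonneg (by linarith) (by linarith)
  have hδ1 : δ ≤ 1 / 4 := by
    have : (a : ℝ) ≤ 2 * m + 1 := by exact_mod_cast hma'
    rw [hδ, div_le_iff₀ (by linarith)]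
    linarith
  have habr : (a : ℝ) + b = 4 * k := by exact_mod_cast hab
  have hac : (a : ℝ) / (2 * k) = 2 - x / 2 := by
    rw [hx]
    have : (a : ℝ) = 4 * k - b := by linarith
    rw [this]
    field_simp
    ring
  have e1 : -((m : ℝ) / k) = -2 + x / 2 + δ := by
    have h1 : (m : ℝ) / k = (a : ℝ) / (2 * k) - δ := by
      rw [hδ]
      field_simp
      ring
    rw [h1, hac]
    ring
  have e2 : -(((a - m : ℕ) : ℝ) / k) = -2 + x / 2 - δ := by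
    have h1 : ((a - m : ℕ) : ℝ) / k = (a : ℝ) / (2 * k) + δ := by
      rw [Nat.cast_sub (by omega), hδ]
      field_simp
      ring
    rw [h1, hac]
    ring
  have hcosh : Real.exp δ + Real.exp (-δ) ≤ 2 * (32 / 31) := by
    have h1 : Real.cosh δ ≤ Real.exp (δ ^ 2 / 2) := Real.cosh_le_exp_half_sq δ
    have h2 : Real.exp (δ ^ 2 / 2) ≤ Real.exp (1 / 32) := Real.exp_le_exp.2 (by nlinarith)
    have h3 : Real.exp (1 / 32 : ℝ) ≤ 32 / 31 := by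
      have h4 : 1 - 1 / 32 ≤ Real.exp (-(1 / 32 : ℝ)) := by
        have := Real.add_one_le_exp (-(1 / 32 : ℝ))
        linarith
      have h5 : Real.exp (1 / 32 : ℝ) * Real.exp (-(1 / 32 : ℝ)) = 1 := by rw [← Real.exp_add]; simp
      have h6 : 0 < Real.exp (1 / 32 : ℝ) := Real.exp_pos _
      nlinarith
    have h7 : Real.exp δ + Real.exp (-δ) = 2 * Real.cosh δ := by
      rw [Real.cosh_eq]
      ring
    rw [h7]
    linarith
  have hsum : (1 - 1 / (k : ℝ)) ^ m + (1 - 1 / (k : ℝ)) ^ (a - m) ≤ 0.2795 / u := by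
    have h1 : Real.exp (-((m : ℝ) / k)) + Real.exp (-(((a - m : ℕ) : ℝ) / k)) =
        Real.exp (-2) * Real.exp (x / 2) * (Real.exp δ + Real.exp (-δ)) := by
      rw [e1, e2, sub_eq_add_neg]
      simp only [Real.exp_add]
      ring
    have h2 : Real.exp (x / 2) = 1 / u := by
      rw [hu, Real.exp_neg, one_div, inv_inv]
    have h3 := add_le_add (dpow_le hk m) (dpow_le hk (a - m))
    rw [h1, h2] at h3
    refine h3.trans ?_
    have h4 := exp_m2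
    have h5 : 0 < Real.exp (-2 : ℝ) := Real.exp_pos _
    have h6 : 0 < 1 / u := by positivity
    calc Real.exp (-2) * (1 / u) * (Real.exp δ + Real.exp (-δ)) ≤ Real.exp (-2) * (1 / u) * (2 * (32 / 31)) :=
          mul_le_mul_of_nonneg_left hcosh (by positivity)
      _ = Real.exp (-2) * (2 * (32 / 31)) * (1 / u) := by ring
      _ ≤ 0.2795 * (1 / u) := mul_le_mul_of_nonneg_right (by linarith) h6.le
      _ = 0.2795 / u := by ring
  have hfin : 0.2795 / u + u ^ 2 ≤ 0.97 := by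
    have h1 : 0.2795 / u ≤ 0.97 - u ^ 2 := by
      rw [div_le_iff₀ hu0]
      have h2 : 0 ≤ (u - 0.36) * (0.78 - u) * (u + 1.14) :=
        mul_nonneg (mul_nonneg (by linarith) (by linarith)) (by linarith)
      nlinarith
    linarith
  linarith

/-- four `k` summands, all ratios, all `k` -/
theorem four_k_one (k a b : ℕ) (hk : 2 ≤ k) (hab : a + b = 4 * k) (ha : k ≤ 2 * a) (hb : k ≤ 2 * b) :
    dimH {c : ℝ | 0 < c ∧ ¬ Cov2 k a b c} ≤ ENNReal.ofReal 0.97 := by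
  rcases le_or_gt b (2 * k) with h | h
  · have h1 := num_core hk hab hb h rfl
    have h2 := generalE k (a / 2) b (a - a / 2) hk
    rw [show a / 2 + (a - a / 2) = a by omega] at h2
    refine h2.trans (ENNReal.ofReal_le_ofReal ?_)
    linarith
  · have h1 := num_core (a := b) (b := a) hk (by omega) ha (by omega) rfl
    have h2 := generalD k a (b / 2) (b - b / 2) hk
    rw [show b / 2 + (b - b / 2) = b by omega] at h2
    refine h2.trans (ENNReal.ofReal_le_ofReal ?_)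
    linarith

theorem four_k : dimH {c : ℝ | 0 < c ∧ ∃ k a b : ℕ, 2 ≤ k ∧ a + b = 4 * k ∧ k ≤ 2 * a ∧ k ≤ 2 * b ∧ ¬ Cov2 k a b c} ≤
    ENNReal.ofReal 0.97 := by
  have hsub : {c : ℝ | 0 < c ∧ ∃ k a b : ℕ, 2 ≤ k ∧ a + b = 4 * k ∧ k ≤ 2 * a ∧ k ≤ 2 * b ∧ ¬ Cov2 k a b c} ⊆
      ⋃ k : ℕ, ⋃ a : ℕ, ⋃ b : ℕ, ⋃ _h : 2 ≤ k ∧ a + b = 4 * k ∧ k ≤ 2 * a ∧ k ≤ 2 * b, {c : ℝ | 0 < c ∧ ¬ Cov2 k a b c} := by
    rintro c ⟨hc, k, a, b, h1, h2, h3, h4, h5⟩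
    simp only [Set.mem_iUnion]
    exact ⟨k, a, b, ⟨h1, h2, h3, h4⟩, hc, h5⟩
  refine (dimH_mono hsub).trans ?_
  rw [dimH_iUnion]
  refine iSup_le fun k => ?_
  rw [dimH_iUnion]
  refine iSup_le fun a => ?_
  rw [dimH_iUnion]
  refine iSup_le fun b => ?_
  rw [dimH_iUnion]
  exact iSup_le fun h => four_k_one k a b h.1 h.2.1 h.2.2.1 h.2.2.2

lemma exp_m11 : 3 * Real.exp (-(11 / 10)) < 1 := by
  have h1 : Real.exp 1 > 2.7182818283 := Real.exp_one_gt_d9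
  have h2 : Real.exp (-(11 / 10 : ℝ)) ^ 10 = 1 / Real.exp 1 ^ 11 := by
    rw [← Real.exp_nat_mul, ← Real.exp_nat_mul, one_div, ← Real.exp_neg]
    congr 1
    norm_num
  by_contra hcon
  have h3 : (1 / 3 : ℝ) ≤ Real.exp (-(11 / 10 : ℝ)) := by linarith
  have h4 : (1 / 3 : ℝ) ^ 10 ≤ Real.exp (-(11 / 10 : ℝ)) ^ 10 := pow_le_pow_left₀ (by norm_num) h3 10
  rw [h2] at h4
  have h5 : (2.7182818283 : ℝ) ^ 11 ≤ Real.exp 1 ^ 11 := pow_le_pow_left₀ (by norm_num) h1.le 11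
  have h6 : 1 / Real.exp 1 ^ 11 ≤ 1 / (2.7182818283 : ℝ) ^ 11 := one_div_le_one_div_of_le (by norm_num) h5
  have h7 : (1 / 3 : ℝ) ^ 10 ≤ 1 / (2.7182818283 : ℝ) ^ 11 := h4.trans h6
  norm_num at h7

lemma num3 {k t : ℕ} (hk : 2 ≤ k) (ht : 11 * k ≤ 10 * t) :
    (1 - 1 / (k : ℝ)) ^ t + (1 - 1 / (k : ℝ)) ^ t + (1 - 1 / (k : ℝ)) ^ t < 1 := by
  have hk0 : (2 : ℝ) ≤ k := by exact_mod_cast hk
  have h1 := dpow_le hk t
  have h2 : Real.exp (-((t : ℝ) / k)) ≤ Real.exp (-(11 / 10)) := by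
    refine Real.exp_le_exp.2 (neg_le_neg ?_)
    rw [div_le_div_iff₀ (by norm_num) (by linarith)]
    exact_mod_cast (by omega : 11 * k ≤ t * 10)
  have h3 := exp_m11
  linarith

lemma num3' {k t : ℕ} (hk : 2 ≤ k) (ht : 11 * k ≤ 10 * t) :
    (1 - 1 / (k : ℝ)) ^ t + (1 - 1 / (k : ℝ)) ^ t + (1 - 1 / (k : ℝ)) ^ t ≤ 3 * Real.exp (-(11 / 10)) := by
  have hk0 : (2 : ℝ) ≤ k := by exact_mod_cast hk
  have h1 := dpow_le hk t
  have h2 : Real.exp (-((t : ℝ) / k)) ≤ Real.exp (-(11 / 10)) := by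
    refine Real.exp_le_exp.2 (neg_le_neg ?_)
    rw [div_le_div_iff₀ (by norm_num) (by linarith)]
    exact_mod_cast (by omega : 11 * k ≤ t * 10)
  linarith

/-- three blocks of the same size, all `k` -/
theorem three_t : dimH {c : ℝ | 0 < c ∧ ∃ k t : ℕ, 2 ≤ k ∧ 11 * k ≤ 10 * t ∧
    ¬ (Cov2 k (2 * t) t c ∧ Cov2 k t (2 * t) c)} < 1 := by
  have hsub : {c : ℝ | 0 < c ∧ ∃ k t : ℕ, 2 ≤ k ∧ 11 * k ≤ 10 * t ∧
    ¬ (Cov2 k (2 * t) t c ∧ Cov2 k t (2 * t) c)} ⊆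
      ⋃ k : ℕ, ⋃ t : ℕ, ⋃ _h : 2 ≤ k ∧ 11 * k ≤ 10 * t,
        ({c : ℝ | 0 < c ∧ ¬ Cov2 k (t + t) t c} ∪ {c : ℝ | 0 < c ∧ ¬ Cov2 k t (t + t) c}) := by
    rintro c ⟨hc, k, t, h1, h2, h3⟩
    simp only [Set.mem_iUnion]
    refine ⟨k, t, ⟨h1, h2⟩, ?_⟩
    rw [two_mul] at h3
    by_cases h4 : Cov2 k (t + t) t c
    · exact Or.inr ⟨hc, fun h5 => h3 ⟨h4, h5⟩⟩
    · exact Or.inl ⟨hc, h4⟩
  have hlt : ENNReal.ofReal (3 * Real.exp (-(11 / 10))) < 1 := by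
    rw [show (1 : ℝ≥0∞) = ENNReal.ofReal 1 by simp, ENNReal.ofReal_lt_ofReal_iff (by norm_num)]
    exact exp_m11
  refine lt_of_le_of_lt ((dimH_mono hsub).trans ?_) hlt
  rw [dimH_iUnion]
  refine iSup_le fun k => ?_
  rw [dimH_iUnion]
  refine iSup_le fun t => ?_
  rw [dimH_iUnion]
  refine iSup_le fun h => ?_
  rw [dimH_union]
  have h1 := ENNReal.ofReal_le_ofReal (num3' h.1 h.2)
  exact max_le ((generalE k t t t h.1).trans h1) ((generalD k t t t h.1).trans h1)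

end Pool.Agent.D0H17.MR
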