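import Pool.Agent.D0H17.MR.Scale

set_option autoImplicit false

/-! The number of cells with a bad ratio at one scale. -/

namespace Pool.Agent.D0H17.MR

open Finset MeasureTheory Filter Pool.Agent.D0H17.MW
open scoped ENNReal

lemma aux_ratio {x y d g ρ m : ℝ} (hy : 0 < y) (hd : 0 < d) (hg : 0 < g) (hρ : 0 < ρ) :
    x * y * 15 * m / (d * (2 * ρ) * (ρ / g * y) ^ 2) = 15 * m / (2 * ρ ^ 3) * ((x * g ^ 2) / (y * d)) := by
  field_simp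

lemma one_scale (fl : Bool) (L h N NY G : ℕ) (hL : 1 ≤ L) (hh : 1 ≤ h) {q u0 A2 : ℝ} (hq : 1 ≤ q)
    (hNq : (N : ℝ) = 16 * L * h * q) (hN2L : 2 * L ≤ N) (X Y D : Finset ℕ) (hG : 1 ≤ G)
    (hYq : ∀ y ∈ Y, y ≤ NY) (hDq : ∀ d ∈ D, d ≤ NY) (hNY : (NY : ℝ) = q) (hY0 : 0 < Y.card) (hD0 : 0 < D.card)
    (hX3 : ∀ v : ℝ, ((X.filter fun x : ℕ => |v - (x : ℝ)| < 2 * (3 * (G : ℝ))).card : ℝ) ≤ 15)
    (hX4 : ∀ u : ℝ, u0 + G ≤ u → u ≤ (A2 + 1) * q → ∃ x ∈ X, |u - (x : ℝ)| < 3 * G) (hGq : u0 + G ≤ q)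
    {ρ : ℝ} (hρ : ρ = 1 / (8 * L * h)) :
    ((FC fl ρ ((2 * L + 6) * q) (A2 * q) X Y D L N).card : ℝ) ≤
      N * (15 * (4 * ρ * (L + 1) + 64 * ρ ^ 2 * (1 + Real.log NY)) / (2 * ρ ^ 3) *
        (((X.card : ℝ) * (3 * G) ^ 2) / ((Y.card : ℝ) * D.card))) := by
  have hL0 : (1 : ℝ) ≤ L := by exact_mod_cast hL
  have hh0 : (1 : ℝ) ≤ h := by exact_mod_cast hh
  have hG0 : (1 : ℝ) ≤ G := by exact_mod_cast hG
  have hρ0 : 0 < ρ := by rw [hρ]; positivity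
  have hLh : (1 : ℝ) ≤ L * h := one_le_mul_of_one_le_of_one_le hL0 hh0
  have hρ1 : ρ ≤ 1 := by
    rw [hρ, div_le_one (by positivity)]
    nlinarith
  set g : ℝ := 3 * G with hg
  have hg0 : 0 < g := by simp only [hg]; linarith
  have hρg : ρ ≤ g := by simp only [hg]; linarith
  have hYc : (0 : ℝ) < (Y.card : ℝ) := by exact_mod_cast hY0
  have hDc : (0 : ℝ) < (D.card : ℝ) := by exact_mod_cast hD0
  have hNpos : (0 : ℝ) < N := by rw [hNq]; positivity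
  have hl1 : 1 / (2 * (L : ℝ)) ≤ 1 := by
    rw [div_le_one (by linarith)]
    linarith
  have hl0 : 0 < 1 / (2 * (L : ℝ)) := by positivity
  set W : ℝ := (D.card : ℝ) * (2 * ρ) * (ρ / g * Y.card) ^ 2 with hW
  have hW0 : 0 < W := by simp only [hW]; positivity
  have hcY : ∀ y ∈ Y, (y : ℝ) ≤ q := by
    intro y hy
    rw [← hNY]
    exact_mod_cast hYq y hy
  have hcD : ∀ d ∈ D, (d : ℝ) ≤ q := by
    intro d hd
    rw [← hNY]
    exact_mod_cast hDq d hd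
  have h2ρ : 2 * ρ ≤ 1 / (2 * (L : ℝ)) := by
    rw [hρ, mul_one_div, div_le_div_iff₀ (by positivity) (by positivity)]
    nlinarith
  have hNρ : 1 / (N : ℝ) * (2 * q) ≤ ρ := by
    rw [hNq, hρ]
    refine le_of_eq ?_
    have : q ≠ 0 := by linarith
    field_simp
    norm_num
  have hT : ∀ c ∈ Bad fl ρ ((2 * L + 6) * q) (A2 * q) X Y D, ∀ c' : ℝ, |c' - c| ≤ 1 / N → 1 / (2 * (L : ℝ)) ≤ c' →
      c' ≤ L + 1 → c' ∈ {c | W ≤ VV ρ g X Y c} := by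
    intro c hc c' hcc hc1 hc2
    refine bad_VV fl (B := q) (l := 1 / (2 * (L : ℝ))) (h := 1 / (N : ℝ)) hρ0 hρg X Y D (by linarith) hcY hcD hl0 hl1
      h2ρ hρ1 hc hcc hNρ hc1 ?_
    intro u hu1 hu2
    refine hX4 u ?_ ?_
    · have h1 : 2 * (c' + 1) * q ≤ 2 * ((L : ℝ) + 1 + 1) * q := mul_le_mul_of_nonneg_right (by linarith) (by linarith)
      have h2 : (2 * (L : ℝ) + 6) * q - 2 * ((L : ℝ) + 1 + 1) * q - 1 = 2 * q - 1 := by ring
      linarith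
    · have h1 : (A2 + 1) * q = A2 * q + q := by ring
      linarith
  have hFC := FC_card fl ρ ((2 * L + 6) * q) (A2 * q) X Y D L N hL hN2L {c | W ≤ VV ρ g X Y c} hT
  have hp01 : 1 / (2 * (L : ℝ)) ≤ (L : ℝ) + 1 := by linarith
  have hMk := markov hρ0 hρg hp01 X Y hW0
  have hSM := second_moment hρ0 hρg hp01 X Y 15 hX3 NY hYq
  have hI0 : 0 ≤ ∫ c in (1 / (2 * (L : ℝ)))..((L : ℝ) + 1), VV ρ g X Y c :=
    intervalIntegral.integral_nonneg hp01 fun c _ => VV_nonneg hρ0 hρg X Y c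
  have h1 : ((FC fl ρ ((2 * L + 6) * q) (A2 * q) X Y D L N).card : ℝ) / N ≤
      (∫ c in (1 / (2 * (L : ℝ)))..((L : ℝ) + 1), VV ρ g X Y c) / W := by
    have h2 := hFC.trans hMk
    rwa [ENNReal.ofReal_le_ofReal_iff (by positivity)] at h2
  have hlog : 0 ≤ Real.log NY := by
    rw [hNY]
    exact Real.log_nonneg hq
  have h2 : ∫ c in (1 / (2 * (L : ℝ)))..((L : ℝ) + 1), VV ρ g X Y c ≤
      (X.card : ℝ) * Y.card * 15 * (4 * ρ * (L + 1) + 64 * ρ ^ 2 * (1 + Real.log NY)) := by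
    refine hSM.trans ?_
    refine mul_le_mul_of_nonneg_left ?_ (by positivity)
    have h3 : 4 * ρ * ((L : ℝ) + 1 - 1 / (2 * L)) ≤ 4 * ρ * (L + 1) :=
      mul_le_mul_of_nonneg_left (by linarith) (by linarith)
    linarith
  have h3 : (∫ c in (1 / (2 * (L : ℝ)))..((L : ℝ) + 1), VV ρ g X Y c) / W ≤
      15 * (4 * ρ * (L + 1) + 64 * ρ ^ 2 * (1 + Real.log NY)) / (2 * ρ ^ 3) *
        (((X.card : ℝ) * g ^ 2) / ((Y.card : ℝ) * D.card)) := by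
    rw [← aux_ratio hYc hDc hg0 hρ0]
    exact div_le_div_of_nonneg_right h2 hW0.le
  have h4 := h1.trans h3
  rw [div_le_iff₀ hNpos] at h4
  rw [mul_comm (N : ℝ)]
  exact h4

end Pool.Agent.D0H17.MR
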